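import Pool.Agent.K6T.LocMain

/-!
# K6S / A : the smallest component, 7-regular graphs (MP_f8ea30_co)

`core7`: if `G[S]` is 7-regular without `K_6` minor, then for some `w` there is a union of components `C` of `S \ N[w]` such that no `v ∈ C` has a neighbour `a` for
which `N(v) \ {a}` has a `K_4` minor. The proof is the second half of `K6T.local_core` (helper81).
-/

set_option autoImplicit false

namespace Pool.Agent.K6S

open Finset Pool.Agent.K6T
open Classical

variable {V : Type*}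

/-- the graph `G` with `a` made adjacent to everything -/
private def unG (G : SimpleGraph V) (a : V) : SimpleGraph V where
  Adj x y := G.Adj x y ∨ (x = a ∧ y ≠ a) ∨ (y = a ∧ x ≠ a)
  symm := ⟨by
    rintro x y (h | h | h)
    · exact Or.inl h.symm
    · exact Or.inr (Or.inr h)
    · exact Or.inr (Or.inl h)⟩
  loopless := ⟨by
    rintro x (h | h | h)
    · exact h.ne rfl
    · exact h.2 h.1
    · exact h.2 h.1⟩

private theorem cone_vertex {p : ℕ} {G : SimpleGraph V} {M : Finset V} {v : V}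
    (hv : ∀ z ∈ M, G.Adj v z) (h : HasK p G M) : HasK (p + 1) G (insert v M) :=
  HasK.cone_nb (mem_insert_self v M)
    (h.mono le_rfl fun z hz => mem_nb.2 ⟨mem_insert_of_mem hz, hv z hz⟩)

private theorem drop {p : ℕ} {G : SimpleGraph V} {M : Finset V} (h : HasK (p + 1) G M) (b : V) :
    HasK p G (M.erase b) := by
  obtain ⟨B, h1, h2, h3, h4⟩ := h
  obtain ⟨i0, hi0⟩ : ∃ i0 : Fin (p + 1), ∀ j, j ≠ i0 → b ∉ B j := by
    by_cases hb : ∃ i, b ∈ B i
    · obtain ⟨i, hi⟩ := hb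
      exact ⟨i, fun j hj hbj => (disjoint_left.1 (h3 j i hj)) hbj hi⟩
    · exact ⟨0, fun j _ hbj => hb ⟨j, hbj⟩⟩
  refine ⟨fun j => B (i0.succAbove j), fun j => ?_, fun j => h2 _, fun i j hij => ?_,
    fun i j hij => ?_⟩
  · intro z hz
    refine mem_erase.2 ⟨fun hzb => ?_, h1 _ hz⟩
    rw [hzb] at hz
    exact hi0 _ (Fin.succAbove_ne i0 j) hz
  · exact h3 _ _ fun h => hij (Fin.succAbove_right_injective h)
  · exact h4 _ _ fun h => hij (Fin.succAbove_right_injective h)

private theorem attach {p : ℕ} {G : SimpleGraph V} {S D : Finset V} {w a0 : V} (hw : w ∈ S)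
    (hDS : D ⊆ S) (hDw : w ∉ D) (hDN : ∀ z ∈ D, z ∉ nb G S w) (hD : Conn G D)
    (ha0 : a0 ∈ nb G S w) (hK : HasK p G ((nb G S w).erase a0)) (hz : ∃ z ∈ D, G.Adj a0 z)
    (hall : ∀ b ∈ nb G S w, b ≠ a0 → (∃ z ∈ D, G.Adj b z) ∨ G.Adj b a0) :
    HasK (p + 1 + 1) G S := by
  have h5 : HasK (p + 1) (unG G a0) (nb G S w) := by
    refine HasK.cone_nb ha0 (hK.mono (fun x y h => Or.inl h) fun z hz => ?_)
    exact mem_nb.2 ⟨mem_of_mem_erase hz, Or.inr (Or.inl ⟨rfl, ne_of_mem_erase hz⟩)⟩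
  obtain ⟨F, hFa, hFb⟩ : ∃ F : V → Finset V, F a0 = insert a0 D ∧ ∀ z, z ≠ a0 → F z = {z} :=
    ⟨fun z => if z = a0 then insert a0 D else {z}, if_pos rfl, fun z hz => if_neg hz⟩
  have hself : ∀ z, z ∈ F z := by
    intro z
    by_cases h : z = a0
    · rw [h, hFa]; exact mem_insert_self _ _
    · rw [hFb z h]; exact mem_singleton_self z
  obtain ⟨z0, hz0, haz0⟩ := hz
  have hwN : w ∉ nb G S w := fun h => (mem_nb.1 h).2.ne rfl
  refine HasK.cone (Q := unG G a0) F {w} (conn_singleton G w) (singleton_subset_iff.2 hw)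
    ?_ ?_ ?_ ?_ ?_ ?_ h5
  · intro z hz
    by_cases h : z = a0
    · rw [h, hFa]
      exact insert_subset (mem_nb.1 ha0).1 hDS
    · rw [hFb z h, singleton_subset_iff]
      exact (mem_nb.1 hz).1
  · intro z _
    by_cases h : z = a0
    · rw [h, hFa]
      exact conn_insert hD hz0 haz0
    · rw [hFb z h]
      exact conn_singleton G z
  · intro x hx y hy hxy
    by_cases h : x = a0
    · have h' : y ≠ a0 := fun h2 => hxy (h.trans h2.symm)
      rw [h, hFa, hFb y h', disjoint_singleton_right, mem_insert]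
      rintro (h2 | h2)
      · exact h' h2
      · exact hDN y h2 hy
    · by_cases h' : y = a0
      · rw [h', hFa, hFb x h, disjoint_singleton_left, mem_insert]
        rintro (h2 | h2)
        · exact h h2
        · exact hDN x h2 hx
      · rw [hFb x h, hFb y h', disjoint_singleton]
        exact hxy
  · intro x hx y hy hxy
    have key : ∀ b ∈ nb G S w, b ≠ a0 → ∃ z ∈ F a0, ∃ u ∈ F b, G.Adj z u := by
      intro b hb hba
      rcases hall b hb hba with ⟨z, hz, hbz⟩ | h2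
      · refine ⟨z, ?_, b, hself b, hbz.symm⟩
        rw [hFa]
        exact mem_insert_of_mem hz
      · exact ⟨a0, hself a0, b, hself b, h2.symm⟩
    rcases hxy with h | h | h
    · exact ⟨x, hself x, y, hself y, h⟩
    · rw [h.1]
      exact key y hy h.2
    · rw [h.1]
      obtain ⟨z, hz, u, hu, hzu⟩ := key x hx h.2
      exact ⟨u, hu, z, hz, hzu.symm⟩
  · intro x hx
    rw [disjoint_singleton_left]
    by_cases h : x = a0
    · rw [h, hFa, mem_insert]
      rintro (h2 | h2)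
      · exact hwN (h2 ▸ ha0)
      · exact hDw h2
    · rw [hFb x h, mem_singleton]
      intro h2
      exact hwN (h2 ▸ hx)
  · intro x hx
    exact ⟨w, mem_singleton_self w, x, hself x, (mem_nb.1 hx).2⟩

theorem core7 (G : SimpleGraph V) (S : Finset V) (hne : S.Nonempty)
    (h7 : ∀ v ∈ S, (nb G S v).card = 7) (hno : ¬ HasK 6 G S) :
    ∃ w ∈ S, ∃ C : Finset V, C.Nonempty ∧ C ⊆ S \ insert w (nb G S w) ∧
      (∀ x ∈ C, ∀ y ∈ S \ insert w (nb G S w), G.Adj x y → y ∈ C) ∧
      ∀ v ∈ C, ∀ a ∈ nb G S v, ¬ HasK 4 G ((nb G S v).erase a) := by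
  have hdom : ¬ ∀ w ∈ S, (nb G S w).card ≤ 7 → S ⊆ insert w (nb G S w) := by
    intro hdom
    obtain ⟨w, hw⟩ := hne
    have hwn : w ∉ nb G S w := fun h => (mem_nb.1 h).2.ne rfl
    have h1 := card_le_card (hdom w hw (h7 w hw).le)
    rw [card_insert_of_notMem hwn, h7 w hw] at h1
    have h2 : dc G S = S.card * 7 := by
      unfold dc
      rw [sum_congr rfl h7, sum_const, smul_eq_mul]
    have h3 : 8 ≤ S.card := by
      have h4 : insert w (nb G S w) ⊆ S := insert_subset hw (nb_subset G S w)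
      have h5 := card_le_card h4
      rw [card_insert_of_notMem hwn, h7 w hw] at h5
      exact h5
    exact hno (mad4 V G S (by omega) (by omega))
  obtain ⟨Good, hGood⟩ : ∃ Good : Finset V → Prop, ∀ C, Good C ↔ ∃ w ∈ S, (nb G S w).card ≤ 7 ∧
      C ⊆ S \ insert w (nb G S w) ∧ Conn G C ∧
      ∀ x ∈ C, ∀ y ∈ S \ insert w (nb G S w), G.Adj x y → y ∈ C := ⟨_, fun C => Iff.rfl⟩
  obtain ⟨C, hCmem, hCmin⟩ := Finset.exists_min_image (S.powerset.filter Good) Finset.card (by
    push Not at hdom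
    obtain ⟨w0, hw0, h70, hns⟩ := hdom
    obtain ⟨v, hv, hv'⟩ := not_subset.1 hns
    obtain ⟨C0, h1, h2, h3⟩ := exists_comp G (S \ insert w0 (nb G S w0)) ⟨v, mem_sdiff.2 ⟨hv, hv'⟩⟩
    exact ⟨C0, mem_filter.2 ⟨mem_powerset.2 (h1.trans sdiff_subset),
      (hGood C0).2 ⟨w0, hw0, h70, h1, h2, h3⟩⟩⟩)
  have hmin : ∀ D : Finset V, Good D → C.card ≤ D.card := by
    intro D hD
    obtain ⟨w1, -, -, hD1, -⟩ := (hGood D).1 hD
    exact hCmin D (mem_filter.2 ⟨mem_powerset.2 (hD1.trans sdiff_subset), hD⟩)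
  obtain ⟨w, hw, -, hCR, hC, hcl⟩ := (hGood C).1 (mem_filter.1 hCmem).2
  have hR : ∀ x ∈ C, x ∈ S ∧ x ≠ w ∧ x ∉ nb G S w := by
    intro x hx
    have := hCR hx
    rw [mem_sdiff, mem_insert, not_or] at this
    exact ⟨this.1, this.2.1, this.2.2⟩
  refine ⟨w, hw, C, hC.1, hCR, hcl, fun w' hw'C a0 ha0 hK0 => ?_⟩
  have hw'min : ∀ x ∈ C, (nb G S w').card ≤ (nb G S x).card := fun x hx => by
    rw [h7 x (hR x hx).1, h7 w' (hR w' hw'C).1]
  obtain ⟨hw'S, hw'w, hw'N⟩ := hR w' hw'C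
  have h7' : (nb G S w').card ≤ 7 := (h7 w' hw'S).le
  have hnadj : ¬ G.Adj w w' := fun h => hw'N (mem_nb.2 ⟨hw'S, h⟩)
  have hwR' : w ∈ S \ insert w' (nb G S w') := by
    rw [mem_sdiff, mem_insert, not_or]
    exact ⟨hw, hw'w.symm, fun h => hnadj (mem_nb.1 h).2.symm⟩
  obtain ⟨D, hDR, hwD, hD, hDcl⟩ := exists_comp_mem G (S \ insert w' (nb G S w')) hwR'
  have hDR' : ∀ x ∈ D, x ∈ S ∧ x ≠ w' ∧ x ∉ nb G S w' := by
    intro x hx
    have := hDR hx
    rw [mem_sdiff, mem_insert, not_or] at this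
    exact ⟨this.1, this.2.1, this.2.2⟩
  -- the neighbours of `w` outside `X` are in `D`
  have F1 : ∀ z ∈ nb G S w, z ∉ insert w' (nb G S w') → z ∈ D := by
    intro z hz hzX
    exact hDcl w hwD z (mem_sdiff.2 ⟨(mem_nb.1 hz).1, hzX⟩) (mem_nb.1 hz).2
  -- `C \ X ⊆ D`
  have F2 : ∀ y ∈ C, y ∉ insert w' (nb G S w') → y ∈ D := by
    intro y hy hyX
    by_contra hyD
    obtain ⟨D', hD'R, hyD', hD', hD'cl⟩ := exists_comp_mem G (S \ insert w' (nb G S w'))
      (mem_sdiff.2 ⟨(hR y hy).1, hyX⟩)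
    have hdis : ∀ z ∈ D', z ∉ D := by
      intro z hz hzD
      exact hyD (conn_closed_subset hDcl hD' hD'R hz hzD hyD')
    have hD'w : D' ⊆ S \ insert w (nb G S w) := by
      intro z hz
      have hzR := mem_sdiff.1 (hD'R hz)
      rw [mem_sdiff, mem_insert, not_or]
      refine ⟨hzR.1, fun h => ?_, fun h => ?_⟩
      · rw [h] at hz
        exact hdis w hz hwD
      · exact hdis z hz (F1 z h hzR.2)
    have hD'C : D' ⊆ C := conn_closed_subset hcl hD' hD'w hyD' hy
    have hss : D' ⊂ C := by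
      refine ⟨hD'C, fun h => ?_⟩
      have := mem_sdiff.1 (hD'R (h hw'C))
      exact this.2 (mem_insert_self _ _)
    have h1 := card_lt_card hss
    have h2 := hmin D' ((hGood D').2 ⟨w', hw'S, h7', hD'R, hD', hD'cl⟩)
    omega
  -- twins
  have F3 : ∀ b ∈ nb G S w', (∃ z ∈ D, G.Adj b z) ∨
      ∀ z ∈ insert w' (nb G S w'), z ≠ b → G.Adj b z := by
    intro b hb
    by_cases hatt : ∃ z ∈ D, G.Adj b z
    · exact Or.inl hatt
    right
    push Not at hatt
    obtain ⟨hbS, hw'b⟩ := mem_nb.1 hb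
    have hbw : b ≠ w := fun h => hnadj (h ▸ hw'b.symm)
    have hbN : b ∉ nb G S w := fun h => hatt w hwD (mem_nb.1 h).2.symm
    have hbC : b ∈ C := by
      refine hcl w' hw'C b ?_ hw'b
      rw [mem_sdiff, mem_insert, not_or]
      exact ⟨hbS, hbw, hbN⟩
    have hsub : nb G S b ⊆ (insert w' (nb G S w')).erase b := by
      intro z hz
      obtain ⟨hzS, hbz⟩ := mem_nb.1 hz
      refine mem_erase.2 ⟨hbz.ne', ?_⟩
      by_contra hzX
      refine hatt z ?_ hbz
      by_cases hzw : z = w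
      · rw [hzw]; exact hwD
      · by_cases hzN : z ∈ nb G S w
        · exact F1 z hzN hzX
        · refine F2 z (hcl b hbC z ?_ hbz) hzX
          rw [mem_sdiff, mem_insert, not_or]
          exact ⟨hzS, hzw, hzN⟩
    have hw'n : w' ∉ nb G S w' := fun h => (mem_nb.1 h).2.ne rfl
    have hcard : ((insert w' (nb G S w')).erase b).card ≤ (nb G S b).card := by
      rw [card_erase_of_mem (mem_insert_of_mem hb), card_insert_of_notMem hw'n]
      have := hw'min b hbC
      simpa using this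
    have heq := eq_of_subset_of_card_le hsub hcard
    intro z hz hzb
    have : z ∈ nb G S b := by
      rw [heq]
      exact mem_erase.2 ⟨hzb, hz⟩
    exact (mem_nb.1 this).2
  have ha0X : a0 ∈ insert w' (nb G S w') := mem_insert_of_mem ha0
  rcases F3 a0 ha0 with h | h
  · refine hno (attach (p := 4) hw'S (fun z hz => (hDR' z hz).1) (fun h => (hDR' w' h).2.1 rfl)
      (fun z hz => (hDR' z hz).2.2) hD ha0 hK0 h fun b hb hba => ?_)
    rcases F3 b hb with h1 | h1
    · exact Or.inl h1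
    · exact Or.inr (h1 a0 ha0X hba.symm)
  · have k5 : HasK 5 G (nb G S w') := by
      refine HasK.cone_nb ha0 (hK0.mono le_rfl fun z hz => ?_)
      obtain ⟨hza, hzN⟩ := mem_erase.1 hz
      exact mem_nb.2 ⟨hzN, h z (mem_insert_of_mem hzN) hza⟩
    exact hno (HasK.cone_nb hw'S k5)

end Pool.Agent.K6S
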