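import Pool.Agent.K6T.LocMain

/-!
# K6S / C : the end of the proof (MP_f8ea30_co)

`fin7`. `Wh G N`: the graph on `N` is a wheel, hub `u`, rim the 6-cycle `r 0, ..., r 5`.
PROOF. Take `v ∈ C` with hub `u` and rim `r`. All degrees are 7, so `N[u] = N[v]` (`u` is adjacent to `v` and to the six `r i`).
(2) No `r i` is in `C`: let `h` be the hub of `r i`, `N[h] = N[r i]`. `v ∈ N[r i] = N[h]`, so `h ∈ N[v]`. If `h = v` or `h = u` then
`N[r i] = N[v]`, so `r i ~ r (i+3)`, no. If `h = r j` then `h ~ r i` gives `j = i ± 1`, and `r (i ± 2)` (the other rim neighbour of `r j`) is in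
`N[h] = N[r i]`, no.
(3) So every `r i`, being adjacent to `v ∈ C` and not in `C`, is in `N(w)` (it is not `w`).
(4) `N(r 0)` has 7 elements, `v, u, r 1, r 5, w` are five of them; let `o ≠ o'` be the other two. They are not in
`{v, u, w} ∪ {r i}` (`r 0` is not adjacent to `r 2, r 3, r 4`), hence not adjacent to `v`, `u`.
(5) `o` is not adjacent to both `r 1` and `r 5`: otherwise the six bags `{u}, {v}, {w, r 3}, {r 5, o}, {r 0}, {r 1}` are a `K_6` minor.
(6) the common neighbours of `r 0` and `o` are in `{r 1, r 5, w, o'}`, at least 3, so `w` is one of them by (5). The same for `o'`. So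
`N(w)` contains the six `r i`, `o`, `o'`: eight elements, contradiction.
-/

set_option autoImplicit false
set_option linter.unusedSimpArgs false

namespace Pool.Agent.K6S

open Finset Pool.Agent.K6T
open Classical

variable {V : Type*}

private theorem hub_nb {G : SimpleGraph V} {S : Finset V} (h7 : ∀ v ∈ S, (nb G S v).card = 7)
    {x h : V} {r : Fin 6 → V} (hx : x ∈ S) (hnb : nb G S x = insert h (univ.image r))
    (hinj : Function.Injective r) (hur : ∀ i, G.Adj h (r i)) :
    nb G S h = insert x (univ.image r) := by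
  have hxh : h ∈ nb G S x := by rw [hnb]; exact mem_insert_self _ _
  have hri : ∀ i, r i ∈ nb G S x := fun i => by
    rw [hnb]; exact mem_insert_of_mem (mem_image_of_mem r (mem_univ i))
  have hhS : h ∈ S := (mem_nb.1 hxh).1
  symm
  apply eq_of_subset_of_card_le
  · intro z hz
    rcases mem_insert.1 hz with hz | hz
    · rw [hz]
      exact mem_nb.2 ⟨hx, (mem_nb.1 hxh).2.symm⟩
    · obtain ⟨i, -, rfl⟩ := mem_image.1 hz
      exact mem_nb.2 ⟨(mem_nb.1 (hri i)).1, hur i⟩
  · rw [h7 h hhS, card_insert_of_notMem, card_image_of_injective _ hinj, card_univ,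
      Fintype.card_fin]
    intro hz
    obtain ⟨i, -, hi⟩ := mem_image.1 hz
    have h2 := (mem_nb.1 (hri i)).2
    rw [hi] at h2
    exact h2.ne rfl

/-- the closed neighbourhoods of the hub and of the centre agree -/
private theorem hub_cl {G : SimpleGraph V} {S : Finset V} (h7 : ∀ v ∈ S, (nb G S v).card = 7)
    {x h : V} {r : Fin 6 → V} (hx : x ∈ S) (hnb : nb G S x = insert h (univ.image r))
    (hinj : Function.Injective r) (hur : ∀ i, G.Adj h (r i)) {z : V} (hz : z ∈ S) :
    (z = h ∨ G.Adj h z) ↔ (z = x ∨ G.Adj x z) := by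
  have h1 := hub_nb h7 hx hnb hinj hur
  have e1 : G.Adj h z ↔ z ∈ nb G S h := by rw [mem_nb]; exact ⟨fun h => ⟨hz, h⟩, fun h => h.2⟩
  have e2 : G.Adj x z ↔ z ∈ nb G S x := by rw [mem_nb]; exact ⟨fun h => ⟨hz, h⟩, fun h => h.2⟩
  rw [e1, e2, h1, hnb, mem_insert, mem_insert]
  tauto

private theorem hasK_lt {p : ℕ} {G : SimpleGraph V} {S : Finset V} (B : Fin p → Finset V)
    (h1 : ∀ i, B i ⊆ S) (h2 : ∀ i, Conn G (B i)) (h3 : ∀ i j, i < j → Disjoint (B i) (B j))
    (h4 : ∀ i j, i < j → ∃ x ∈ B i, ∃ y ∈ B j, G.Adj x y) : HasK p G S := by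
  refine ⟨B, h1, h2, fun i j hij => ?_, fun i j hij => ?_⟩
  · rcases lt_or_gt_of_ne hij with h | h
    · exact h3 i j h
    · exact (h3 j i h).symm
  · rcases lt_or_gt_of_ne hij with h | h
    · exact h4 i j h
    · obtain ⟨x, hx, y, hy, hxy⟩ := h4 j i h
      exact ⟨y, hy, x, hx, hxy.symm⟩

/-- steps (1)-(3): the wheel at a vertex of `C`, all rim vertices are neighbours of `w` -/
theorem fin123 (G : SimpleGraph V) (S : Finset V) (h7 : ∀ v ∈ S, (nb G S v).card = 7)
    (w : V) (hw : w ∈ S) (C : Finset V) (hne : C.Nonempty) (hC : C ⊆ S \ insert w (nb G S w))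
    (hcl : ∀ x ∈ C, ∀ y ∈ S \ insert w (nb G S w), G.Adj x y → y ∈ C)
    (hwh : ∀ v ∈ C, ∃ (u : V) (r : Fin 6 → V), nb G S v = insert u (univ.image r) ∧
      Function.Injective r ∧ (∀ i, r i ≠ u) ∧ (∀ i, G.Adj u (r i)) ∧
      ∀ i j, G.Adj (r i) (r j) ↔ (j = i + 1 ∨ i = j + 1)) :
    ∃ (v u : V) (r : Fin 6 → V), v ∈ S ∧ u ∈ S ∧ G.Adj v u ∧ v ≠ w ∧ u ≠ w ∧ ¬ G.Adj w v ∧
      ¬ G.Adj w u ∧ (∀ i, r i ∈ nb G S w) ∧ (∀ i, G.Adj v (r i)) ∧ (∀ i, G.Adj u (r i)) ∧
      Function.Injective r ∧ ∀ i j, G.Adj (r i) (r j) ↔ (j = i + 1 ∨ i = j + 1) := by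
  obtain ⟨v, hvC⟩ := hne
  have hCS : ∀ x ∈ C, x ∈ S := fun x hx => (mem_sdiff.1 (hC hx)).1
  have hCw : ∀ x ∈ C, x ≠ w ∧ ¬ G.Adj w x := by
    intro x hx
    have h := (mem_sdiff.1 (hC hx)).2
    rw [mem_insert, mem_nb] at h
    exact ⟨fun h1 => h (Or.inl h1), fun h1 => h (Or.inr ⟨hCS x hx, h1⟩)⟩
  have hvS := hCS v hvC
  obtain ⟨hvw, hvw'⟩ := hCw v hvC
  obtain ⟨u, r, hnb, hinj, hru, hur, hrr⟩ := hwh v hvC
  have hunb := hub_nb h7 hvS hnb hinj hur
  have hu : u ∈ nb G S v := by rw [hnb]; exact mem_insert_self _ _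
  have hri : ∀ i, r i ∈ nb G S v := fun i => by
    rw [hnb]; exact mem_insert_of_mem (mem_image_of_mem r (mem_univ i))
  have huS : u ∈ S := (mem_nb.1 hu).1
  have hvu : G.Adj v u := (mem_nb.1 hu).2
  have hrS : ∀ i, r i ∈ S := fun i => (mem_nb.1 (hri i)).1
  have hvr : ∀ i, G.Adj v (r i) := fun i => (mem_nb.1 (hri i)).2
  have huw : u ≠ w := by
    intro h
    rw [h] at hvu
    exact hvw' hvu.symm
  have hrw : ∀ i, r i ≠ w := by
    intro i h
    have := hvr i
    rw [h] at this
    exact hvw' this.symm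
  -- (2)
  have hrC : ∀ i, r i ∉ C := by
    intro i hi
    obtain ⟨h, s, hnb', hinj', -, hus, -⟩ := hwh (r i) hi
    have hcls : ∀ z ∈ S, (z = h ∨ G.Adj h z) → (z = r i ∨ G.Adj (r i) z) := fun z hz =>
      (hub_cl h7 (hrS i) hnb' hinj' hus hz).1
    have hcls' : ∀ z ∈ S, (z = r i ∨ G.Adj (r i) z) → (z = h ∨ G.Adj h z) := fun z hz =>
      (hub_cl h7 (hrS i) hnb' hinj' hus hz).2
    have hh : h ∈ nb G S (r i) := by rw [hnb']; exact mem_insert_self _ _
    have hhS := (mem_nb.1 hh).1
    have hih := (mem_nb.1 hh).2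
    have key : ∀ j, (r j = h ∨ G.Adj h (r j)) → j = i ∨ (j = i + 1 ∨ i = j + 1) := by
      intro j hj
      rcases hcls (r j) (hrS j) hj with h1 | h1
      · exact Or.inl (hinj h1)
      · exact Or.inr ((hrr i j).1 h1)
    rcases hcls' v hvS (Or.inr (hvr i).symm) with h1 | h1
    · rw [← h1] at key
      have := key (i + 3) (Or.inr (hvr _))
      clear * - this
      revert this
      revert i
      decide
    · have h2 : h ∈ nb G S v := mem_nb.2 ⟨hhS, h1.symm⟩
      rw [hnb, mem_insert] at h2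
      rcases h2 with h2 | h2
      · rw [h2] at key
        have := key (i + 3) (Or.inr (hur _))
        clear * - this
        revert this
        revert i
        decide
      · obtain ⟨j, -, hj⟩ := mem_image.1 h2
        rw [← hj] at key hih
        have h4 := (hrr i j).1 hih
        have h5 := key (j + 1) (Or.inr ((hrr _ _).2 (Or.inl rfl)))
        have h6 := key (j + 5) (Or.inr ((hrr _ _).2 (Or.inr (by
          clear * -
          revert j
          decide))))
        clear * - h4 h5 h6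
        revert h4 h5 h6
        revert i j
        decide
  -- (3)
  have hwr : ∀ i, G.Adj w (r i) := by
    intro i
    by_contra hcon
    apply hrC i
    apply hcl v hvC (r i) _ (hvr i)
    rw [mem_sdiff, mem_insert, mem_nb]
    refine ⟨hrS i, ?_⟩
    rintro (h | h)
    · exact hrw i h
    · exact hcon h.2
  have huw' : ¬ G.Adj w u := by
    intro h
    have h1 : w ∈ nb G S u := mem_nb.2 ⟨hw, h.symm⟩
    rw [hunb, mem_insert] at h1
    rcases h1 with h1 | h1
    · exact hvw h1.symm
    · obtain ⟨i, -, hi⟩ := mem_image.1 h1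
      exact hrw i hi
  exact ⟨v, u, r, hvS, huS, hvu, hvw, huw, hvw', huw', fun i => mem_nb.2 ⟨hrS i, hwr i⟩, hvr,
    hur, hinj, hrr⟩

theorem fin7 (G : SimpleGraph V) (S : Finset V) (h7 : ∀ v ∈ S, (nb G S v).card = 7)
    (h3 : ∀ x ∈ S, ∀ y ∈ S, G.Adj x y → 3 ≤ (S.filter (fun z => G.Adj x z ∧ G.Adj y z)).card)
    (w : V) (hw : w ∈ S) (C : Finset V) (hne : C.Nonempty) (hC : C ⊆ S \ insert w (nb G S w))
    (hcl : ∀ x ∈ C, ∀ y ∈ S \ insert w (nb G S w), G.Adj x y → y ∈ C)
    (hwh : ∀ v ∈ C, ∃ (u : V) (r : Fin 6 → V), nb G S v = insert u (univ.image r) ∧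
      Function.Injective r ∧ (∀ i, r i ≠ u) ∧ (∀ i, G.Adj u (r i)) ∧
      ∀ i j, G.Adj (r i) (r j) ↔ (j = i + 1 ∨ i = j + 1)) :
    HasK 6 G S := by
  obtain ⟨v, hvC⟩ := hne
  have hCS : ∀ x ∈ C, x ∈ S := fun x hx => (mem_sdiff.1 (hC hx)).1
  have hCw : ∀ x ∈ C, x ≠ w ∧ ¬ G.Adj w x := by
    intro x hx
    have h := (mem_sdiff.1 (hC hx)).2
    rw [mem_insert, mem_nb] at h
    exact ⟨fun h1 => h (Or.inl h1), fun h1 => h (Or.inr ⟨hCS x hx, h1⟩)⟩
  have hvS := hCS v hvC
  obtain ⟨hvw, hvw'⟩ := hCw v hvC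
  obtain ⟨u, r, hnb, hinj, hru, hur, hrr⟩ := hwh v hvC
  have hunb := hub_nb h7 hvS hnb hinj hur
  have hu : u ∈ nb G S v := by rw [hnb]; exact mem_insert_self _ _
  have hri : ∀ i, r i ∈ nb G S v := fun i => by
    rw [hnb]; exact mem_insert_of_mem (mem_image_of_mem r (mem_univ i))
  have huS : u ∈ S := (mem_nb.1 hu).1
  have hvu : G.Adj v u := (mem_nb.1 hu).2
  have hrS : ∀ i, r i ∈ S := fun i => (mem_nb.1 (hri i)).1
  have hvr : ∀ i, G.Adj v (r i) := fun i => (mem_nb.1 (hri i)).2
  have huw : u ≠ w := by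
    intro h
    rw [h] at hvu
    exact hvw' hvu.symm
  have hrw : ∀ i, r i ≠ w := by
    intro i h
    have := hvr i
    rw [h] at this
    exact hvw' this.symm
  -- (2)
  have hrC : ∀ i, r i ∉ C := by
    intro i hi
    obtain ⟨h, s, hnb', hinj', -, hus, -⟩ := hwh (r i) hi
    have hcls : ∀ z ∈ S, (z = h ∨ G.Adj h z) → (z = r i ∨ G.Adj (r i) z) := fun z hz =>
      (hub_cl h7 (hrS i) hnb' hinj' hus hz).1
    have hcls' : ∀ z ∈ S, (z = r i ∨ G.Adj (r i) z) → (z = h ∨ G.Adj h z) := fun z hz =>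
      (hub_cl h7 (hrS i) hnb' hinj' hus hz).2
    have hh : h ∈ nb G S (r i) := by rw [hnb']; exact mem_insert_self _ _
    have hhS := (mem_nb.1 hh).1
    have hih := (mem_nb.1 hh).2
    have key : ∀ j, (r j = h ∨ G.Adj h (r j)) → j = i ∨ (j = i + 1 ∨ i = j + 1) := by
      intro j hj
      rcases hcls (r j) (hrS j) hj with h1 | h1
      · exact Or.inl (hinj h1)
      · exact Or.inr ((hrr i j).1 h1)
    rcases hcls' v hvS (Or.inr (hvr i).symm) with h1 | h1
    · rw [← h1] at key
      have := key (i + 3) (Or.inr (hvr _))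
      clear * - this
      revert this
      revert i
      decide
    · have h2 : h ∈ nb G S v := mem_nb.2 ⟨hhS, h1.symm⟩
      rw [hnb, mem_insert] at h2
      rcases h2 with h2 | h2
      · rw [h2] at key
        have := key (i + 3) (Or.inr (hur _))
        clear * - this
        revert this
        revert i
        decide
      · obtain ⟨j, -, hj⟩ := mem_image.1 h2
        rw [← hj] at key hih
        have h4 := (hrr i j).1 hih
        have h5 := key (j + 1) (Or.inr ((hrr _ _).2 (Or.inl rfl)))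
        have h6 := key (j + 5) (Or.inr ((hrr _ _).2 (Or.inr (by
          clear * -
          revert j
          decide))))
        clear * - h4 h5 h6
        revert h4 h5 h6
        revert i j
        decide
  -- (3)
  have hwr : ∀ i, G.Adj w (r i) := by
    intro i
    by_contra hcon
    apply hrC i
    apply hcl v hvC (r i) _ (hvr i)
    rw [mem_sdiff, mem_insert, mem_nb]
    refine ⟨hrS i, ?_⟩
    rintro (h | h)
    · exact hrw i h
    · exact hcon h.2
  -- (4)
  obtain ⟨A, hA⟩ : ∃ A : Finset V, A = {v, u, r 1, r 5, w} := ⟨_, rfl⟩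
  have r15 : r 1 ≠ r 5 := fun h => by
    have := hinj h
    revert this
    decide
  have hAc : A.card = 5 := by
    rw [hA]
    rw [card_insert_of_notMem, card_insert_of_notMem, card_insert_of_notMem,
      card_insert_of_notMem, card_singleton]
    · simp only [mem_singleton]
      exact hrw 5
    · simp only [mem_insert, mem_singleton, not_or]
      exact ⟨r15, hrw 1⟩
    · simp only [mem_insert, mem_singleton, not_or]
      exact ⟨(hru 1).symm, (hru 5).symm, huw⟩
    · simp only [mem_insert, mem_singleton, not_or]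
      exact ⟨hvu.ne, (hvr 1).ne, (hvr 5).ne, hvw⟩
  have hAs : A ⊆ nb G S (r 0) := by
    rw [hA]
    intro z hz
    simp only [mem_insert, mem_singleton] at hz
    rw [mem_nb]
    rcases hz with h | h | h | h | h
    · rw [h]; exact ⟨hvS, (hvr 0).symm⟩
    · rw [h]; exact ⟨huS, (hur 0).symm⟩
    · rw [h]; exact ⟨hrS 1, (hrr 0 1).2 (by decide)⟩
    · rw [h]; exact ⟨hrS 5, (hrr 0 5).2 (by decide)⟩
    · rw [h]; exact ⟨hw, (hwr 0).symm⟩
  have hT : (nb G S (r 0) \ A).card = 2 := by
    rw [card_sdiff_of_subset hAs, h7 _ (hrS 0), hAc]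
  have hTp : ∀ o ∈ nb G S (r 0) \ A, o ∈ S ∧ G.Adj (r 0) o ∧ o ≠ v ∧ o ≠ u ∧ o ≠ w ∧
      (∀ i, o ≠ r i) ∧ ¬ G.Adj v o ∧ ¬ G.Adj u o := by
    intro o ho
    rw [mem_sdiff, mem_nb, hA] at ho
    simp only [mem_insert, mem_singleton, not_or] at ho
    obtain ⟨⟨hoS, h0⟩, h1, h2, h3', h4, h5⟩ := ho
    have hor : ∀ i, o ≠ r i := by
      intro i h
      rw [h] at h0 h3' h4
      have e := (hrr 0 i).1 h0
      have e1 : i = 1 ∨ i = 5 := by
        clear * - e
        revert e
        revert i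
        decide
      rcases e1 with e1 | e1
      · exact h3' (by rw [e1])
      · exact h4 (by rw [e1])
    refine ⟨hoS, h0, h1, h2, h5, hor, ?_, ?_⟩
    · intro h
      have : o ∈ nb G S v := mem_nb.2 ⟨hoS, h⟩
      rw [hnb, mem_insert] at this
      rcases this with h | h
      · exact h2 h
      · obtain ⟨i, -, hi⟩ := mem_image.1 h
        exact hor i hi.symm
    · intro h
      have : o ∈ nb G S u := mem_nb.2 ⟨hoS, h⟩
      rw [hunb, mem_insert] at this
      rcases this with h | h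
      · exact h1 h
      · obtain ⟨i, -, hi⟩ := mem_image.1 h
        exact hor i hi.symm
  by_contra hK
  -- (5)
  have h5 : ∀ o ∈ nb G S (r 0) \ A, ¬ (G.Adj o (r 1) ∧ G.Adj o (r 5)) := by
    rintro o ho ⟨ho1, ho5⟩
    obtain ⟨hoS, h0, hov, hou, how, hor, -, -⟩ := hTp o ho
    apply hK
    have n01 : r 0 ≠ r 1 := fun h => absurd (hinj h) (by decide)
    have n03 : r 0 ≠ r 3 := fun h => absurd (hinj h) (by decide)
    have n05 : r 0 ≠ r 5 := fun h => absurd (hinj h) (by decide)
    have n13 : r 1 ≠ r 3 := fun h => absurd (hinj h) (by decide)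
    have n35 : r 3 ≠ r 5 := fun h => absurd (hinj h) (by decide)
    have d1 : u ≠ v := hvu.ne'
    have d2 : ∀ i, u ≠ r i := fun i => (hru i).symm
    have d3 : u ≠ o := hou.symm
    have d4 : ∀ i, v ≠ r i := fun i => (hvr i).ne
    have d5 : v ≠ o := hov.symm
    have d6 : ∀ i, w ≠ r i := fun i => (hrw i).symm
    have d7 : w ≠ o := how.symm
    have d8 : ∀ i, r i ≠ o := fun i => (hor i).symm
    refine hasK_lt ![{u}, {v}, {w, r 3}, {r 5, o}, {r 0}, {r 1}] ?_ ?_ ?_ ?_
    · intro i
      fin_cases i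
      · exact singleton_subset_iff.2 huS
      · exact singleton_subset_iff.2 hvS
      · exact insert_subset hw (singleton_subset_iff.2 (hrS 3))
      · exact insert_subset (hrS 5) (singleton_subset_iff.2 hoS)
      · exact singleton_subset_iff.2 (hrS 0)
      · exact singleton_subset_iff.2 (hrS 1)
    · intro i
      fin_cases i
      · exact conn_singleton G u
      · exact conn_singleton G v
      · exact conn_pair (hwr 3)
      · exact conn_pair ho5.symm
      · exact conn_singleton G (r 0)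
      · exact conn_singleton G (r 1)
    · intro i j hij
      fin_cases i <;> fin_cases j <;> first
        | exact absurd hij (by decide)
        | (simp [d1, d2, d3, d4, d5, d6, d7, d8, n01, n03, n05, n13, n35, r15, huw, hvw,
            n01.symm, n03.symm, n05.symm, n13.symm, n35.symm, r15.symm, huw.symm, hvw.symm,
            d1.symm, d3.symm, d5.symm, d7.symm, fun i => (d2 i).symm, fun i => (d4 i).symm,
            fun i => (d6 i).symm, fun i => (d8 i).symm])
    · intro i j hij
      have hwm : w ∈ ({w, r 3} : Finset V) := mem_insert_self _ _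
      have h3m : r 3 ∈ ({w, r 3} : Finset V) := mem_insert_of_mem (mem_singleton_self _)
      have h5m : r 5 ∈ ({r 5, o} : Finset V) := mem_insert_self _ _
      have hom : o ∈ ({r 5, o} : Finset V) := mem_insert_of_mem (mem_singleton_self _)
      have hum := mem_singleton_self u
      have hvm := mem_singleton_self v
      have h0m := mem_singleton_self (r 0)
      have h1m := mem_singleton_self (r 1)
      have a05 : G.Adj (r 5) (r 0) := (hrr 5 0).2 (by decide)
      have a01 : G.Adj (r 0) (r 1) := (hrr 0 1).2 (by decide)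
      fin_cases i <;> fin_cases j <;> first
        | exact absurd hij (by decide)
        | exact ⟨_, hum, _, hvm, hvu.symm⟩
        | exact ⟨_, hum, _, h3m, hur 3⟩
        | exact ⟨_, hum, _, h5m, hur 5⟩
        | exact ⟨_, hum, _, h0m, hur 0⟩
        | exact ⟨_, hum, _, h1m, hur 1⟩
        | exact ⟨_, hvm, _, h3m, hvr 3⟩
        | exact ⟨_, hvm, _, h5m, hvr 5⟩
        | exact ⟨_, hvm, _, h0m, hvr 0⟩
        | exact ⟨_, hvm, _, h1m, hvr 1⟩
        | exact ⟨_, hwm, _, h5m, hwr 5⟩
        | exact ⟨_, hwm, _, h0m, hwr 0⟩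
        | exact ⟨_, hwm, _, h1m, hwr 1⟩
        | exact ⟨_, h5m, _, h0m, a05⟩
        | exact ⟨_, hom, _, h1m, ho1⟩
        | exact ⟨_, h0m, _, h1m, a01⟩
  -- (6)
  have h6 : ∀ o ∈ nb G S (r 0) \ A, G.Adj o w := by
    intro o ho
    obtain ⟨hoS, h0, hov, hou, how, hor, hnv, hnu⟩ := hTp o ho
    by_contra hcon
    have hc := h3 (r 0) (hrS 0) o hoS h0
    -- the common neighbours are in `{r 1, r 5} ∪ (T \ {o})`
    have hsub : (S.filter (fun z => G.Adj (r 0) z ∧ G.Adj o z)) ⊆
        insert (r 1) (insert (r 5) ((nb G S (r 0) \ A).erase o)) := by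
      intro z hz
      rw [mem_filter] at hz
      obtain ⟨hzS, hz0, hzo⟩ := hz
      by_cases hzA : z ∈ A
      · rw [hA] at hzA
        simp only [mem_insert, mem_singleton] at hzA
        rcases hzA with h | h | h | h | h
        · rw [h] at hzo; exact absurd hzo.symm hnv
        · rw [h] at hzo; exact absurd hzo.symm hnu
        · rw [h]; exact mem_insert_self _ _
        · rw [h]; exact mem_insert_of_mem (mem_insert_self _ _)
        · rw [h] at hzo; exact absurd hzo hcon
      · refine mem_insert_of_mem (mem_insert_of_mem (mem_erase.2 ⟨hzo.ne', ?_⟩))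
        exact mem_sdiff.2 ⟨mem_nb.2 ⟨hzS, hz0⟩, hzA⟩
    have hcard : (insert (r 1) (insert (r 5) ((nb G S (r 0) \ A).erase o))).card ≤ 3 := by
      refine (card_insert_le _ _).trans ?_
      have h1 := card_insert_le (r 5) ((nb G S (r 0) \ A).erase o)
      rw [card_erase_of_mem ho, hT] at h1
      omega
    have heq := eq_of_subset_of_card_le hsub (hcard.trans hc)
    have m1 : r 1 ∈ (S.filter (fun z => G.Adj (r 0) z ∧ G.Adj o z)) := by
      rw [heq]; exact mem_insert_self _ _
    have m5 : r 5 ∈ (S.filter (fun z => G.Adj (r 0) z ∧ G.Adj o z)) := by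
      rw [heq]; exact mem_insert_of_mem (mem_insert_self _ _)
    exact h5 o ho ⟨(mem_filter.1 m1).2.2, (mem_filter.1 m5).2.2⟩
  -- the end
  have hbig : (univ.image r) ∪ (nb G S (r 0) \ A) ⊆ nb G S w := by
    intro z hz
    rcases mem_union.1 hz with h | h
    · obtain ⟨i, -, rfl⟩ := mem_image.1 h
      exact mem_nb.2 ⟨hrS i, hwr i⟩
    · exact mem_nb.2 ⟨(hTp z h).1, (h6 z h).symm⟩
  have hcb := card_le_card hbig
  rw [card_union_of_disjoint, card_image_of_injective _ hinj, card_univ, Fintype.card_fin, hT,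
    h7 w hw] at hcb
  · omega
  · rw [disjoint_left]
    intro z hz hz2
    obtain ⟨i, -, hi⟩ := mem_image.1 hz
    exact (hTp z hz2).2.2.2.2.2.1 i hi.symm

end Pool.Agent.K6S
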