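import Pool.Agent.K6S.C

/-!
# K6S / D : the end of the proof, general form (MP_f8ea30_co)

`fin8`. By `fin123` there are adjacent `v, u`, both adjacent to all `r i`, with `r i ∈ N(w)`, `u, v` not in `N[w]`; so `N(w) = {r i} ∪ {s}`.
(P) If `N(w) \ {a}` has a `K_4` minor with bags `B j`: the bag with `s` (if any; then `a ≠ s`, so `a` is some `r i`) is replaced by
`B j ∪ {w, a}`. Now every bag contains some `r k`, so `{u}, {v}` and the four bags are a `K_6` minor.
(W) If the graph on `N(w)` is a wheel, its hub is `s` (`r i` is not adjacent to `r (i+3)`), and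
`{u}, {v}, {w, r 0}, {s, r 1}, {r 2, r 3}, {r 4, r 5}` is a `K_6` minor.
-/

set_option autoImplicit false
set_option linter.unusedSimpArgs false

namespace Pool.Agent.K6S

open Finset Pool.Agent.K6T
open Classical

variable {V : Type*}

/-- two adjacent vertices `u`, `v`, both adjacent to all `r k`, and four bags, each with some `r k` -/
private theorem six {G : SimpleGraph V} {S : Finset V} {u v : V} {r : Fin 6 → V}
    (B : Fin 4 → Finset V) (h1 : ∀ j, B j ⊆ S) (h2 : ∀ j, Conn G (B j))
    (h3 : ∀ i j, i ≠ j → Disjoint (B i) (B j))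
    (h4 : ∀ i j, i ≠ j → ∃ x ∈ B i, ∃ y ∈ B j, G.Adj x y)
    (hr : ∀ j, ∃ k, r k ∈ B j) (hu : ∀ j, u ∉ B j) (hv : ∀ j, v ∉ B j) (hvu : G.Adj v u)
    (hur : ∀ i, G.Adj u (r i)) (hvr : ∀ i, G.Adj v (r i)) (huS : u ∈ S) (hvS : v ∈ S) :
    HasK 6 G S := by
  refine ⟨Fin.cons {u} (Fin.cons {v} B : Fin 5 → Finset V), ?_, ?_, ?_, ?_⟩
  · intro i
    refine Fin.cases ?_ (fun i => ?_) i
    · rw [Fin.cons_zero]; exact singleton_subset_iff.2 huS
    · rw [Fin.cons_succ]
      refine Fin.cases ?_ (fun i => ?_) i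
      · rw [Fin.cons_zero]; exact singleton_subset_iff.2 hvS
      · rw [Fin.cons_succ]; exact h1 i
  · intro i
    refine Fin.cases ?_ (fun i => ?_) i
    · rw [Fin.cons_zero]; exact conn_singleton G u
    · rw [Fin.cons_succ]
      refine Fin.cases ?_ (fun i => ?_) i
      · rw [Fin.cons_zero]; exact conn_singleton G v
      · rw [Fin.cons_succ]; exact h2 i
  · intro i j
    refine Fin.cases ?_ (fun i => ?_) i <;> refine Fin.cases ?_ (fun j => ?_) j
    · intro h; exact absurd rfl h
    · intro _
      rw [Fin.cons_zero, Fin.cons_succ, disjoint_singleton_left]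
      refine Fin.cases ?_ (fun j => ?_) j
      · rw [Fin.cons_zero, mem_singleton]; exact hvu.ne'
      · rw [Fin.cons_succ]; exact hu j
    · intro _
      rw [Fin.cons_zero, Fin.cons_succ, disjoint_singleton_right]
      refine Fin.cases ?_ (fun i => ?_) i
      · rw [Fin.cons_zero, mem_singleton]; exact hvu.ne'
      · rw [Fin.cons_succ]; exact hu i
    · rw [Fin.cons_succ, Fin.cons_succ]
      refine Fin.cases ?_ (fun i => ?_) i <;> refine Fin.cases ?_ (fun j => ?_) j
      · intro h; exact absurd rfl h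
      · intro _
        rw [Fin.cons_zero, Fin.cons_succ, disjoint_singleton_left]
        exact hv j
      · intro _
        rw [Fin.cons_zero, Fin.cons_succ, disjoint_singleton_right]
        exact hv i
      · intro h
        rw [Fin.cons_succ, Fin.cons_succ]
        exact h3 i j fun h' => h (by rw [h'])
  · intro i j
    refine Fin.cases ?_ (fun i => ?_) i <;> refine Fin.cases ?_ (fun j => ?_) j
    · intro h; exact absurd rfl h
    · intro _
      rw [Fin.cons_zero, Fin.cons_succ]
      refine ⟨u, mem_singleton_self u, ?_⟩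
      refine Fin.cases ?_ (fun j => ?_) j
      · rw [Fin.cons_zero]; exact ⟨v, mem_singleton_self v, hvu.symm⟩
      · rw [Fin.cons_succ]
        obtain ⟨k, hk⟩ := hr j
        exact ⟨r k, hk, hur k⟩
    · intro _
      rw [Fin.cons_zero, Fin.cons_succ]
      refine Fin.cases ?_ (fun i => ?_) i
      · rw [Fin.cons_zero]; exact ⟨v, mem_singleton_self v, u, mem_singleton_self u, hvu⟩
      · rw [Fin.cons_succ]
        obtain ⟨k, hk⟩ := hr i
        exact ⟨r k, hk, u, mem_singleton_self u, (hur k).symm⟩
    · rw [Fin.cons_succ, Fin.cons_succ]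
      refine Fin.cases ?_ (fun i => ?_) i <;> refine Fin.cases ?_ (fun j => ?_) j
      · intro h; exact absurd rfl h
      · intro _
        rw [Fin.cons_zero, Fin.cons_succ]
        obtain ⟨k, hk⟩ := hr j
        exact ⟨v, mem_singleton_self v, r k, hk, hvr k⟩
      · intro _
        rw [Fin.cons_zero, Fin.cons_succ]
        obtain ⟨k, hk⟩ := hr i
        exact ⟨r k, hk, v, mem_singleton_self v, (hvr k).symm⟩
      · intro h
        rw [Fin.cons_succ, Fin.cons_succ]
        exact h4 i j fun h' => h (by rw [h'])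

theorem fin8 (G : SimpleGraph V) (S : Finset V) (h7 : ∀ v ∈ S, (nb G S v).card = 7)
    (w : V) (hw : w ∈ S) (C : Finset V) (hne : C.Nonempty) (hC : C ⊆ S \ insert w (nb G S w))
    (hcl : ∀ x ∈ C, ∀ y ∈ S \ insert w (nb G S w), G.Adj x y → y ∈ C)
    (hwh : ∀ v ∈ C, ∃ (u : V) (r : Fin 6 → V), nb G S v = insert u (univ.image r) ∧
      Function.Injective r ∧ (∀ i, r i ≠ u) ∧ (∀ i, G.Adj u (r i)) ∧
      ∀ i j, G.Adj (r i) (r j) ↔ (j = i + 1 ∨ i = j + 1))
    (hw2 : (∃ a ∈ nb G S w, HasK 4 G ((nb G S w).erase a)) ∨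
      ∃ (u : V) (r : Fin 6 → V), nb G S w = insert u (univ.image r) ∧
      Function.Injective r ∧ (∀ i, r i ≠ u) ∧ (∀ i, G.Adj u (r i)) ∧
      ∀ i j, G.Adj (r i) (r j) ↔ (j = i + 1 ∨ i = j + 1)) : HasK 6 G S := by
  obtain ⟨v, u, r, hvS, huS, hvu, hvw, huw, hvw', huw', hrN, hvr, hur, hinj, hrr⟩ :=
    fin123 G S h7 w hw C hne hC hcl hwh
  have hsub : univ.image r ⊆ nb G S w := by
    intro z hz
    obtain ⟨i, -, rfl⟩ := mem_image.1 hz
    exact hrN i
  have hcard : (nb G S w \ univ.image r).card = 1 := by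
    rw [card_sdiff_of_subset hsub, h7 w hw, card_image_of_injective _ hinj, card_univ,
      Fintype.card_fin]
  obtain ⟨s, hs⟩ := card_eq_one.1 hcard
  have hsm : s ∈ nb G S w \ univ.image r := by rw [hs]; exact mem_singleton_self s
  have hsN : s ∈ nb G S w := (mem_sdiff.1 hsm).1
  have hsr : ∀ i, r i ≠ s := fun i h =>
    (mem_sdiff.1 hsm).2 (by rw [← h]; exact mem_image_of_mem r (mem_univ i))
  have hN : ∀ z ∈ nb G S w, z = s ∨ ∃ i, r i = z := by
    intro z hz
    by_cases h : z ∈ univ.image r
    · obtain ⟨i, -, hi⟩ := mem_image.1 h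
      exact Or.inr ⟨i, hi⟩
    · have : z ∈ nb G S w \ univ.image r := mem_sdiff.2 ⟨hz, h⟩
      rw [hs] at this
      exact Or.inl (mem_singleton.1 this)
  have hwN : w ∉ nb G S w := fun h => (mem_nb.1 h).2.ne rfl
  have huN : u ∉ nb G S w := fun h => huw' (mem_nb.1 h).2
  have hvN : v ∉ nb G S w := fun h => hvw' (mem_nb.1 h).2
  rcases hw2 with ⟨a, ha, B, h1, h2, h3, h4⟩ | ⟨u', r', hnb', -, -, hur', -⟩
  · have hBN : ∀ j, ∀ z ∈ B j, z ∈ nb G S w := fun j z hz => (mem_erase.1 (h1 j hz)).2
    have haB : ∀ j, a ∉ B j := fun j h => (mem_erase.1 (h1 j h)).1 rfl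
    obtain ⟨F, hF1, hF2⟩ : ∃ F : Fin 4 → Finset V,
        (∀ j, s ∈ B j → F j = insert a (insert w (B j))) ∧ (∀ j, s ∉ B j → F j = B j) :=
      ⟨fun j => if s ∈ B j then insert a (insert w (B j)) else B j,
        fun j hj => if_pos hj, fun j hj => if_neg hj⟩
    have hBF : ∀ j, B j ⊆ F j := by
      intro j
      by_cases h : s ∈ B j
      · rw [hF1 j h]; exact (subset_insert _ _).trans (subset_insert _ _)
      · rw [hF2 j h]
    have hFm : ∀ j z, z ∈ F j → z = w ∨ z ∈ nb G S w := by
      intro j z hz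
      by_cases h : s ∈ B j
      · rw [hF1 j h, mem_insert, mem_insert] at hz
        rcases hz with hz | hz | hz
        · rw [hz]; exact Or.inr ha
        · exact Or.inl hz
        · exact Or.inr (hBN j z hz)
      · rw [hF2 j h] at hz
        exact Or.inr (hBN j z hz)
    have hd : ∀ i j, i ≠ j → s ∈ B i → Disjoint (F i) (F j) := by
      intro i j hij hi
      have hj : s ∉ B j := fun hj => (disjoint_left.1 (h3 i j hij)) hi hj
      rw [hF1 i hi, hF2 j hj, disjoint_insert_left, disjoint_insert_left]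
      exact ⟨haB j, fun h => hwN (hBN j w h), h3 i j hij⟩
    refine six (r := r) F ?_ ?_ ?_ ?_ ?_ ?_ ?_ hvu hur hvr huS hvS
    · intro j z hz
      rcases hFm j z hz with h | h
      · rw [h]; exact hw
      · exact (mem_nb.1 h).1
    · intro j
      by_cases h : s ∈ B j
      · rw [hF1 j h]
        exact conn_insert (conn_insert (h2 j) h (mem_nb.1 hsN).2) (mem_insert_self _ _)
          (mem_nb.1 ha).2.symm
      · rw [hF2 j h]; exact h2 j
    · intro i j hij
      by_cases hi : s ∈ B i
      · exact hd i j hij hi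
      · by_cases hj : s ∈ B j
        · exact (hd j i hij.symm hj).symm
        · rw [hF2 i hi, hF2 j hj]
          exact h3 i j hij
    · intro i j hij
      obtain ⟨x, hx, y, hy, hxy⟩ := h4 i j hij
      exact ⟨x, hBF i hx, y, hBF j hy, hxy⟩
    · intro j
      by_cases h : s ∈ B j
      · rcases hN a ha with h' | ⟨i, hi⟩
        · rw [← h'] at h
          exact absurd h (haB j)
        · refine ⟨i, ?_⟩
          rw [hF1 j h, hi]
          exact mem_insert_self _ _
      · obtain ⟨x, hx⟩ := (h2 j).1
        rcases hN x (hBN j x hx) with h' | ⟨i, hi⟩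
        · rw [h'] at hx
          exact absurd hx h
        · refine ⟨i, ?_⟩
          rw [hF2 j h, hi]
          exact hx
    · intro j h
      rcases hFm j u h with h | h
      · exact huw h
      · exact huN h
    · intro j h
      rcases hFm j v h with h | h
      · exact hvw h
      · exact hvN h
  · have hu'N : u' ∈ nb G S w := by rw [hnb']; exact mem_insert_self _ _
    have hadj : ∀ z ∈ nb G S w, z ≠ u' → G.Adj u' z := by
      intro z hz hzu
      rw [hnb'] at hz
      rcases mem_insert.1 hz with h | h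
      · exact absurd h hzu
      · obtain ⟨i, -, rfl⟩ := mem_image.1 h
        exact hur' i
    have hu's : u' = s := by
      rcases hN u' hu'N with h | ⟨i, hi⟩
      · exact h
      · exfalso
        have h5 : r (i + 3) ≠ u' := by
          rw [← hi]
          intro h
          have := hinj h
          clear * - this
          revert this
          revert i
          decide
        have h6 := hadj _ (hrN (i + 3)) h5
        rw [← hi] at h6
        have h7 := (hrr _ _).1 h6
        clear * - h7
        revert h7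
        revert i
        decide
    have hsa : ∀ i, G.Adj s (r i) := by
      intro i
      rw [← hu's]
      exact hadj _ (hrN i) (by rw [hu's]; exact hsr i)
    have hwa : ∀ i, G.Adj w (r i) := fun i => (mem_nb.1 (hrN i)).2
    have hws : G.Adj w s := (mem_nb.1 hsN).2
    have hrS : ∀ i, r i ∈ S := fun i => (mem_nb.1 (hrN i)).1
    have hsS : s ∈ S := (mem_nb.1 hsN).1
    have hus : u ≠ s := fun h => huN (h ▸ hsN)
    have hvs : v ≠ s := fun h => hvN (h ▸ hsN)
    have hne' : ∀ i j : Fin 6, i ≠ j → r i ≠ r j := fun i j hij h => hij (hinj h)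
    have hwr : ∀ i, w ≠ r i := fun i => (hwa i).ne
    have a23 : G.Adj (r 2) (r 3) := (hrr 2 3).2 (by decide)
    have a45 : G.Adj (r 4) (r 5) := (hrr 4 5).2 (by decide)
    have a34 : G.Adj (r 3) (r 4) := (hrr 3 4).2 (by decide)
    have hmem : ∀ j : Fin 4, ∀ z ∈ (![{w, r 0}, {s, r 1}, {r 2, r 3}, {r 4, r 5}] :
        Fin 4 → Finset V) j, z = w ∨ z ∈ nb G S w := by
      intro j z hz
      fin_cases j <;>
        simp only [Fin.zero_eta, Fin.mk_one, Fin.reduceFinMk, Matrix.cons_val, Matrix.cons_val_zero, Matrix.cons_val_one, mem_insert,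
          mem_singleton] at hz <;> rcases hz with hz | hz <;> rw [hz]
      · exact Or.inl rfl
      · exact Or.inr (hrN 0)
      · exact Or.inr hsN
      · exact Or.inr (hrN 1)
      · exact Or.inr (hrN 2)
      · exact Or.inr (hrN 3)
      · exact Or.inr (hrN 4)
      · exact Or.inr (hrN 5)
    have m1 : ∀ a b : V, a ∈ ({a, b} : Finset V) := fun a b => mem_insert_self _ _
    have m2 : ∀ a b : V, b ∈ ({a, b} : Finset V) := fun a b =>
      mem_insert_of_mem (mem_singleton_self _)
    have hlt : ∀ i j : Fin 4, i < j →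
        Disjoint ((![{w, r 0}, {s, r 1}, {r 2, r 3}, {r 4, r 5}] : Fin 4 → Finset V) i)
          ((![{w, r 0}, {s, r 1}, {r 2, r 3}, {r 4, r 5}] : Fin 4 → Finset V) j) ∧
        ∃ x ∈ (![{w, r 0}, {s, r 1}, {r 2, r 3}, {r 4, r 5}] : Fin 4 → Finset V) i,
          ∃ y ∈ (![{w, r 0}, {s, r 1}, {r 2, r 3}, {r 4, r 5}] : Fin 4 → Finset V) j,
            G.Adj x y := by
      intro i j hij
      constructor
      · have d1 : ∀ a b c d : V, a ≠ c → a ≠ d → b ≠ c → b ≠ d →
            Disjoint ({a, b} : Finset V) {c, d} := by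
          intro a b c d h1 h2 h3 h4
          simp [h1, h2, h3, h4, h1.symm, h2.symm, h3.symm, h4.symm]
        fin_cases i <;> fin_cases j <;> first
          | exact absurd hij (by decide)
          | exact d1 _ _ _ _ hws.ne (hwr _) (hsr _) (hne' _ _ (by decide))
          | exact d1 _ _ _ _ (hwr _) (hwr _) (hne' _ _ (by decide)) (hne' _ _ (by decide))
          | exact d1 _ _ _ _ (hsr _).symm (hsr _).symm (hne' _ _ (by decide))
              (hne' _ _ (by decide))
          | exact d1 _ _ _ _ (hne' _ _ (by decide)) (hne' _ _ (by decide))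
              (hne' _ _ (by decide)) (hne' _ _ (by decide))
      · fin_cases i <;> fin_cases j <;> first
          | exact absurd hij (by decide)
          | exact ⟨_, m1 _ _, _, m1 _ _, hws⟩
          | exact ⟨_, m1 _ _, _, m1 _ _, hwa _⟩
          | exact ⟨_, m1 _ _, _, m1 _ _, hsa _⟩
          | exact ⟨_, m2 _ _, _, m1 _ _, a34⟩
    refine six (r := r) ![{w, r 0}, {s, r 1}, {r 2, r 3}, {r 4, r 5}] ?_ ?_ ?_ ?_ ?_ ?_ ?_ hvu hur
      hvr huS hvS
    · intro j z hz
      rcases hmem j z hz with h | h
      · rw [h]; exact hw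
      · exact (mem_nb.1 h).1
    · intro j
      fin_cases j
      · exact conn_pair (hwa 0)
      · exact conn_pair (hsa 1)
      · exact conn_pair a23
      · exact conn_pair a45
    · intro i j hij
      rcases lt_or_gt_of_ne hij with h | h
      · exact (hlt i j h).1
      · exact (hlt j i h).1.symm
    · intro i j hij
      rcases lt_or_gt_of_ne hij with h | h
      · exact (hlt i j h).2
      · obtain ⟨x, hx, y, hy, hxy⟩ := (hlt j i h).2
        exact ⟨y, hy, x, hx, hxy.symm⟩
    · intro j
      fin_cases j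
      · exact ⟨0, m2 _ _⟩
      · exact ⟨1, m2 _ _⟩
      · exact ⟨2, m1 _ _⟩
      · exact ⟨4, m1 _ _⟩
    · intro j h
      rcases hmem j u h with h | h
      · exact huw h
      · exact huN h
    · intro j h
      rcases hmem j v h with h | h
      · exact hvw h
      · exact hvN h

end Pool.Agent.K6S
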