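import Mathlib

/-!
# K6S / Tree : graphs on seven vertices, by a decision tree (MP_f8ea30_co)

`A` is a symmetric relation on `{0, ..., 6}` such that `0` is related exactly to `1, 2, 3`. The decision tree `tree` proves: some vertex has
degree at most `2`, or after the removal of some vertex there is a `K_4` minor with bags of size at most `2`, or the graph is a wheel.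
-/

set_option autoImplicit false

namespace Pool.Agent.K6S

inductive T where
  | n (i j : ℕ) (t1 t0 : T) : T
  | d (v : ℕ) : T
  | c (a : ℕ) (x y : List ℕ) : T
  | w (u : ℕ) (r : List ℕ) : T

def bt (m i j : ℕ) : Bool := Nat.testBit m (7 * i + j)

def pr (i j : ℕ) : ℕ := 2 ^ (7 * i + j) ||| 2 ^ (7 * j + i)

def cOK (a : ℕ) (x y : List ℕ) (m : ℕ) : Bool :=
  decide (a < 7) && (List.range 4).all (fun i =>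
    decide (x.getD i 0 < 7) && decide (y.getD i 0 < 7) && decide (x.getD i 0 ≠ a) && decide (y.getD i 0 ≠ a) &&
    (decide (x.getD i 0 = y.getD i 0) || bt m (x.getD i 0) (y.getD i 0)) &&
    (List.range 4).all (fun j => decide (i = j) ||
      (decide (x.getD i 0 ≠ x.getD j 0) && decide (x.getD i 0 ≠ y.getD j 0) &&
        decide (y.getD i 0 ≠ y.getD j 0) &&
        (bt m (x.getD i 0) (x.getD j 0) || bt m (x.getD i 0) (y.getD j 0) ||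
          bt m (y.getD i 0) (x.getD j 0) || bt m (y.getD i 0) (y.getD j 0)))))

def wOK (u : ℕ) (r : List ℕ) (y z : ℕ) : Bool :=
  decide (u < 7) && (List.range 6).all (fun i =>
    decide (r.getD i 0 < 7) && decide (r.getD i 0 ≠ u) && bt y u (r.getD i 0) &&
    (List.range 6).all (fun j => decide (i = j) ||
      (decide (r.getD i 0 ≠ r.getD j 0) &&
        (if (j = (i + 1) % 6 ∨ i = (j + 1) % 6) then bt y (r.getD i 0) (r.getD j 0)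
          else bt z (r.getD i 0) (r.getD j 0)))))

def chk : T → ℕ → ℕ → Bool
  | .n i j t1 t0, y, z => decide (i < 7) && decide (j < 7) && decide (i ≠ j) &&
      chk t1 (y ||| pr i j) z && chk t0 y (z ||| pr i j)
  | .d v, _, z => decide (v < 7) &&
      decide (((List.range 7).filter (fun j => !(decide (j = v)) && !(bt z v j))).length ≤ 2)
  | .c a x y, m, _ => cOK a x y m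
  | .w u r, y, z => wOK u r y z

def tree : T :=
  (.n 4 5 (.n 1 6 (.n 4 6 (.n 1 5 (.n 5 6 (.n 1 4 (.c 0 [1, 4, 5, 6] [1, 4, 5, 6]) 
  (.n 2 4 (.c 3 [1, 4, 5, 6] [0, 2, 5, 6]) (.n 3 4 (.c 2 [1, 4, 5, 6] [0, 3, 5, 6]) (.d 4)))) 
  (.n 2 5 (.n 2 4 (.c 3 [1, 2, 4, 5] [0, 2, 6, 5]) (.n 2 6 (.c 3 [1, 2, 5, 6] [0, 2, 4, 6]) 
  (.n 3 6 (.n 2 3 (.c 4 [0, 1, 2, 3] [0, 5, 2, 6]) 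
  (.n 1 2 (.n 3 4 (.c 6 [0, 1, 2, 5] [3, 1, 2, 4]) 
  (.n 1 4 (.n 3 5 (.c 4 [0, 1, 2, 5] [3, 1, 2, 5]) (.n 1 3 (.w 1 [0, 2, 5, 4, 6, 3]) (.d 3))) 
  (.d 4))) (.d 2))) (.d 6)))) (.n 3 5 (.n 3 4 (.c 2 [1, 3, 4, 5] [0, 3, 6, 5]) 
  (.n 3 6 (.c 2 [1, 3, 5, 6] [0, 3, 4, 6]) (.n 2 6 (.n 2 3 (.c 4 [0, 1, 2, 3] [0, 6, 2, 5]) 
  (.n 1 3 (.n 2 4 (.c 6 [0, 1, 3, 5] [2, 1, 3, 4]) (.n 1 2 (.n 1 4 (.w 1 [0, 2, 6, 4, 5, 3]) 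
  (.d 4)) (.d 2))) (.d 3))) (.d 6)))) (.d 5)))) 
  (.n 2 5 (.n 5 6 (.n 1 4 (.c 3 [1, 4, 5, 6] [0, 4, 2, 6]) 
  (.n 2 4 (.c 3 [2, 4, 5, 6] [0, 4, 5, 1]) 
  (.n 3 4 (.n 1 2 (.n 1 3 (.c 6 [0, 1, 2, 3] [0, 1, 5, 4]) 
  (.n 2 3 (.c 5 [0, 1, 2, 3] [0, 6, 2, 4]) (.n 3 5 (.c 4 [0, 1, 2, 5] [3, 6, 2, 5]) 
  (.n 3 6 (.c 4 [0, 1, 2, 6] [3, 1, 5, 6]) (.d 3))))) 
  (.n 1 3 (.n 2 3 (.c 4 [0, 1, 2, 3] [0, 6, 5, 3]) (.n 2 6 (.c 5 [0, 1, 3, 6] [2, 1, 4, 6]) 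
  (.d 2))) (.d 1))) (.d 4)))) (.n 3 5 (.n 2 6 (.n 1 3 (.c 4 [0, 1, 2, 3] [0, 6, 5, 3]) 
  (.n 1 4 (.c 3 [1, 2, 4, 6] [0, 5, 4, 6]) (.n 1 2 (.n 3 4 (.c 5 [0, 1, 2, 6] [3, 1, 2, 4]) 
  (.n 2 4 (.n 3 6 (.c 4 [0, 1, 2, 6] [3, 1, 2, 6]) (.n 2 3 (.w 2 [0, 1, 6, 4, 5, 3]) (.d 3))) 
  (.d 4))) (.d 1)))) (.n 3 6 (.n 1 2 (.c 4 [0, 1, 2, 3] [0, 6, 5, 3]) 
  (.n 1 4 (.c 2 [1, 3, 4, 6] [0, 5, 4, 6]) (.n 1 3 (.n 2 4 (.c 5 [0, 1, 3, 6] [2, 1, 3, 4]) 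
  (.n 2 3 (.n 3 4 (.w 3 [0, 1, 6, 4, 5, 2]) (.d 4)) (.d 2))) (.d 1)))) (.d 6))) (.d 5))) 
  (.n 3 5 (.n 5 6 (.n 1 4 (.c 2 [1, 4, 5, 6] [0, 4, 3, 6]) 
  (.n 3 4 (.c 2 [3, 4, 5, 6] [0, 4, 5, 1]) 
  (.n 2 4 (.n 1 2 (.n 1 3 (.c 6 [0, 1, 2, 3] [0, 1, 4, 5]) 
  (.n 2 3 (.c 4 [0, 1, 2, 3] [0, 6, 2, 5]) (.n 3 6 (.c 5 [0, 1, 2, 6] [3, 1, 4, 6]) (.d 3)))) 
  (.n 1 3 (.n 2 3 (.c 5 [0, 1, 2, 3] [0, 6, 4, 3]) (.n 2 6 (.c 4 [0, 1, 3, 6] [2, 1, 5, 6]) 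
  (.d 2))) (.d 1))) (.d 4)))) (.d 5)) (.d 5)))) 
  (.n 1 4 (.n 2 6 (.n 2 4 (.n 3 6 (.c 5 [0, 1, 2, 6] [3, 4, 2, 6]) 
  (.n 5 6 (.c 3 [1, 2, 4, 6] [0, 2, 5, 6]) (.d 6))) 
  (.n 3 4 (.n 2 3 (.c 5 [0, 1, 2, 3] [0, 6, 2, 4]) (.n 3 6 (.c 5 [0, 1, 3, 6] [2, 4, 3, 6]) 
  (.n 5 6 (.n 2 5 (.c 3 [1, 2, 5, 6] [0, 2, 4, 6]) 
  (.n 1 2 (.n 3 5 (.c 4 [0, 1, 2, 6] [3, 1, 2, 5]) (.n 1 3 (.n 1 5 (.w 1 [0, 2, 6, 5, 4, 3]) 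
  (.d 5)) (.d 3))) (.d 2))) (.d 6)))) (.d 4))) 
  (.n 3 6 (.n 5 6 (.n 3 4 (.c 2 [1, 3, 4, 6] [0, 3, 5, 6]) 
  (.n 2 4 (.n 2 3 (.c 5 [0, 1, 2, 3] [0, 4, 2, 6]) (.n 2 5 (.c 3 [1, 2, 4, 5] [0, 2, 4, 6]) 
  (.n 1 2 (.n 3 5 (.c 6 [0, 1, 2, 4] [3, 1, 2, 5]) (.n 1 3 (.n 1 5 (.w 1 [0, 2, 4, 5, 6, 3]) 
  (.d 5)) (.d 3))) (.d 2)))) (.d 4))) (.d 6)) (.d 6))) 
  (.n 2 4 (.n 3 4 (.n 2 6 (.n 1 3 (.c 5 [0, 1, 2, 3] [0, 6, 4, 3]) 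
  (.n 3 6 (.c 5 [0, 2, 3, 6] [1, 4, 3, 6]) (.n 5 6 (.n 1 5 (.c 3 [1, 2, 5, 6] [0, 4, 5, 6]) 
  (.n 1 2 (.n 3 5 (.c 4 [0, 1, 2, 6] [3, 1, 2, 5]) (.n 2 3 (.n 2 5 (.w 2 [0, 1, 6, 5, 4, 3]) 
  (.d 5)) (.d 3))) (.d 1))) (.d 6)))) (.n 3 6 (.n 1 2 (.c 5 [0, 1, 2, 3] [0, 6, 4, 3]) 
  (.n 5 6 (.n 1 5 (.c 2 [1, 3, 5, 6] [0, 4, 5, 6]) 
  (.n 1 3 (.n 2 5 (.c 4 [0, 1, 3, 6] [2, 1, 3, 5]) (.n 2 3 (.n 3 5 (.w 3 [0, 1, 6, 5, 4, 2]) 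
  (.d 5)) (.d 2))) (.d 1))) (.d 6))) (.d 6))) (.d 4)) (.d 4)))) 
  (.n 2 6 (.n 4 6 (.n 5 6 (.n 2 4 (.n 1 5 (.c 3 [2, 4, 5, 6] [0, 4, 1, 6]) 
  (.n 2 5 (.c 0 [2, 4, 5, 6] [2, 4, 5, 6]) (.n 3 5 (.c 1 [2, 4, 5, 6] [0, 4, 3, 6]) (.d 5)))) 
  (.n 1 4 (.n 1 5 (.c 3 [1, 4, 5, 6] [0, 4, 5, 2]) (.n 2 5 (.c 3 [2, 4, 5, 6] [0, 1, 5, 6]) 
  (.n 1 2 (.n 3 4 (.c 5 [0, 1, 2, 4] [3, 1, 6, 4]) 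
  (.n 3 5 (.n 1 3 (.c 4 [0, 1, 2, 3] [0, 1, 6, 5]) (.n 2 3 (.c 6 [0, 1, 2, 3] [0, 4, 2, 5]) 
  (.n 3 6 (.c 5 [0, 1, 2, 6] [3, 4, 2, 6]) (.d 3)))) (.d 5))) 
  (.n 1 3 (.n 2 3 (.c 5 [0, 1, 2, 3] [0, 4, 6, 3]) (.d 2)) (.d 1))))) 
  (.n 3 4 (.n 2 5 (.c 1 [2, 4, 5, 6] [0, 3, 5, 6]) (.n 3 5 (.c 1 [3, 4, 5, 6] [0, 4, 5, 2]) 
  (.n 1 5 (.n 1 2 (.n 1 3 (.c 5 [0, 1, 2, 3] [0, 1, 6, 4]) 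
  (.n 2 3 (.c 6 [0, 1, 2, 3] [0, 5, 2, 4]) (.n 3 6 (.c 4 [0, 1, 2, 6] [3, 5, 2, 6]) (.d 3)))) 
  (.n 1 3 (.n 2 3 (.c 4 [0, 1, 2, 3] [0, 5, 6, 3]) (.d 2)) (.d 1))) (.d 5)))) (.d 4)))) 
  (.n 3 6 (.n 2 5 (.n 3 4 (.c 1 [2, 3, 4, 6] [0, 3, 5, 6]) 
  (.n 3 5 (.c 1 [2, 3, 5, 6] [0, 3, 4, 6]) (.n 1 5 (.n 1 3 (.c 4 [0, 1, 2, 3] [0, 5, 6, 3]) 
  (.n 1 4 (.c 3 [1, 2, 4, 5] [0, 6, 4, 5]) (.n 1 2 (.n 2 3 (.n 2 4 (.w 2 [0, 1, 5, 4, 6, 3]) 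
  (.d 4)) (.d 3)) (.d 1)))) (.d 5)))) (.n 1 5 (.n 3 5 (.n 1 2 (.c 4 [0, 1, 2, 3] [0, 5, 6, 3]) 
  (.n 1 4 (.c 2 [1, 3, 4, 5] [0, 6, 4, 5]) (.n 1 3 (.n 2 4 (.c 6 [0, 1, 3, 5] [2, 1, 3, 4]) 
  (.n 2 3 (.n 3 4 (.w 3 [0, 1, 5, 4, 6, 2]) (.d 4)) (.d 2))) (.d 1)))) (.d 5)) (.d 5))) (.d 6))) 
  (.n 3 6 (.n 5 6 (.n 2 4 (.n 3 4 (.c 1 [2, 3, 4, 6] [0, 3, 5, 6]) 
  (.n 1 4 (.n 1 3 (.c 5 [0, 1, 2, 3] [0, 4, 6, 3]) (.n 1 5 (.c 3 [1, 2, 4, 5] [0, 6, 4, 5]) 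
  (.n 1 2 (.n 3 5 (.c 6 [0, 1, 2, 4] [3, 1, 2, 5]) (.n 2 3 (.n 2 5 (.w 2 [0, 1, 4, 5, 6, 3]) 
  (.d 5)) (.d 3))) (.d 1)))) (.d 4))) (.n 1 4 (.n 3 4 (.n 1 2 (.c 5 [0, 1, 2, 3] [0, 4, 6, 3]) 
  (.n 1 5 (.c 2 [1, 3, 4, 5] [0, 6, 4, 5]) (.n 1 3 (.n 2 5 (.c 6 [0, 1, 3, 4] [2, 1, 3, 5]) 
  (.n 2 3 (.n 3 5 (.w 3 [0, 1, 4, 5, 6, 2]) (.d 5)) (.d 2))) (.d 1)))) (.d 4)) (.d 4))) (.d 6)) 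
  (.d 6))) (.n 3 6 (.n 4 6 (.n 5 6 (.n 3 4 (.n 1 5 (.c 2 [3, 4, 5, 6] [0, 4, 1, 6]) 
  (.n 2 5 (.c 1 [3, 4, 5, 6] [0, 4, 2, 6]) (.n 3 5 (.c 0 [3, 4, 5, 6] [3, 4, 5, 6]) (.d 5)))) 
  (.n 1 4 (.n 1 5 (.c 2 [1, 4, 5, 6] [0, 4, 5, 3]) (.n 3 5 (.c 2 [3, 4, 5, 6] [0, 1, 5, 6]) 
  (.n 1 3 (.n 2 4 (.c 5 [0, 1, 3, 4] [2, 1, 6, 4]) 
  (.n 2 5 (.n 1 2 (.c 4 [0, 1, 2, 3] [0, 1, 5, 6]) (.n 2 3 (.c 6 [0, 1, 2, 3] [0, 4, 5, 3]) 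
  (.d 2))) (.d 5))) (.n 1 2 (.n 2 3 (.c 5 [0, 1, 2, 3] [0, 4, 2, 6]) (.d 3)) (.d 1))))) 
  (.n 2 4 (.n 2 5 (.c 1 [2, 4, 5, 6] [0, 4, 5, 3]) (.n 3 5 (.c 1 [3, 4, 5, 6] [0, 2, 5, 6]) 
  (.n 1 5 (.n 1 2 (.n 1 3 (.c 5 [0, 1, 2, 3] [0, 1, 4, 6]) 
  (.n 2 3 (.c 4 [0, 1, 2, 3] [0, 5, 2, 6]) (.d 3))) 
  (.n 1 3 (.n 2 3 (.c 6 [0, 1, 2, 3] [0, 5, 4, 3]) (.d 2)) (.d 1))) (.d 5)))) (.d 4)))) (.d 6)) 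
  (.d 6)) (.d 6)))) 
  (.n 4 6 (.n 1 5 (.n 1 4 (.n 2 5 (.n 2 4 (.n 3 5 (.c 6 [0, 1, 2, 5] [3, 4, 2, 5]) 
  (.n 5 6 (.c 3 [1, 2, 4, 5] [0, 2, 6, 5]) (.d 5))) 
  (.n 3 4 (.n 2 3 (.c 6 [0, 1, 2, 3] [0, 5, 2, 4]) (.n 3 5 (.c 6 [0, 1, 3, 5] [2, 4, 3, 5]) 
  (.n 5 6 (.n 2 6 (.c 3 [1, 2, 5, 6] [0, 2, 5, 4]) 
  (.n 1 2 (.n 3 6 (.c 4 [0, 1, 2, 5] [3, 1, 2, 6]) (.n 1 3 (.n 1 6 (.w 1 [0, 2, 5, 6, 4, 3]) 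
  (.d 6)) (.d 3))) (.d 2))) (.d 5)))) (.d 4))) 
  (.n 3 5 (.n 5 6 (.n 3 4 (.c 2 [1, 3, 4, 5] [0, 3, 6, 5]) 
  (.n 2 4 (.n 2 3 (.c 6 [0, 1, 2, 3] [0, 4, 2, 5]) (.n 2 6 (.c 3 [1, 2, 4, 6] [0, 2, 4, 5]) 
  (.n 1 2 (.n 3 6 (.c 5 [0, 1, 2, 4] [3, 1, 2, 6]) (.n 1 3 (.n 1 6 (.w 1 [0, 2, 4, 6, 5, 3]) 
  (.d 6)) (.d 3))) (.d 2)))) (.d 4))) (.d 5)) (.d 5))) 
  (.n 2 4 (.n 3 4 (.n 2 5 (.n 1 3 (.c 6 [0, 1, 2, 3] [0, 5, 4, 3]) 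
  (.n 3 5 (.c 6 [0, 2, 3, 5] [1, 4, 3, 5]) (.n 5 6 (.n 1 6 (.c 3 [1, 2, 5, 6] [0, 4, 5, 6]) 
  (.n 1 2 (.n 3 6 (.c 4 [0, 1, 2, 5] [3, 1, 2, 6]) (.n 2 3 (.n 2 6 (.w 2 [0, 1, 5, 6, 4, 3]) 
  (.d 6)) (.d 3))) (.d 1))) (.d 5)))) (.n 3 5 (.n 1 2 (.c 6 [0, 1, 2, 3] [0, 5, 4, 3]) 
  (.n 5 6 (.n 1 6 (.c 2 [1, 3, 5, 6] [0, 4, 5, 6]) 
  (.n 1 3 (.n 2 6 (.c 4 [0, 1, 3, 5] [2, 1, 3, 6]) (.n 2 3 (.n 3 6 (.w 3 [0, 1, 5, 6, 4, 2]) 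
  (.d 6)) (.d 2))) (.d 1))) (.d 5))) (.d 5))) (.d 4)) (.d 4))) 
  (.n 2 5 (.n 3 5 (.n 5 6 (.n 2 4 (.n 3 4 (.c 1 [2, 3, 4, 5] [0, 3, 6, 5]) 
  (.n 1 4 (.n 1 3 (.c 6 [0, 1, 2, 3] [0, 4, 5, 3]) (.n 1 6 (.c 3 [1, 2, 4, 6] [0, 5, 4, 6]) 
  (.n 1 2 (.n 3 6 (.c 5 [0, 1, 2, 4] [3, 1, 2, 6]) (.n 2 3 (.n 2 6 (.w 2 [0, 1, 4, 6, 5, 3]) 
  (.d 6)) (.d 3))) (.d 1)))) (.d 4))) (.n 1 4 (.n 3 4 (.n 1 2 (.c 6 [0, 1, 2, 3] [0, 4, 5, 3]) 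
  (.n 1 6 (.c 2 [1, 3, 4, 6] [0, 5, 4, 6]) (.n 1 3 (.n 2 6 (.c 5 [0, 1, 3, 4] [2, 1, 3, 6]) 
  (.n 2 3 (.n 3 6 (.w 3 [0, 1, 4, 6, 5, 2]) (.d 6)) (.d 2))) (.d 1)))) (.d 4)) (.d 4))) (.d 5)) 
  (.d 5)) (.d 5))) (.n 1 4 (.n 2 4 (.n 3 4 (.n 1 5 (.n 2 5 (.c 6 [0, 1, 2, 4] [3, 5, 2, 4]) 
  (.n 3 5 (.c 6 [0, 1, 3, 4] [2, 5, 3, 4]) (.d 5))) 
  (.n 2 5 (.n 3 5 (.c 6 [0, 2, 3, 4] [1, 5, 3, 4]) (.d 5)) (.d 5))) (.d 4)) (.d 4)) (.d 4))))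

def y0 : ℕ := pr 0 1 ||| pr 0 2 ||| pr 0 3

def z0 : ℕ := pr 0 4 ||| pr 0 5 ||| pr 0 6

theorem chk_tree : chk tree y0 z0 = true := by decide +kernel

/-- some vertex has at most two neighbours -/
def DegP (A : ℕ → ℕ → Prop) : Prop :=
  ∃ v < 7, ∃ l : List ℕ, l.length ≤ 2 ∧ ∀ j < 7, A v j → j ∈ l

/-- a `K_4` minor which avoids one vertex -/
def CerP (A : ℕ → ℕ → Prop) : Prop :=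
  ∃ a < 7, ∃ x y : ℕ → ℕ, ∀ i < 4, (x i < 7 ∧ y i < 7 ∧ x i ≠ a ∧ y i ≠ a ∧
    (x i = y i ∨ A (x i) (y i))) ∧ ∀ j < 4, i ≠ j → x i ≠ x j ∧ x i ≠ y j ∧ y i ≠ y j ∧
      (A (x i) (x j) ∨ A (x i) (y j) ∨ A (y i) (x j) ∨ A (y i) (y j))

/-- a wheel -/
def WhP (A : ℕ → ℕ → Prop) : Prop :=
  ∃ u < 7, ∃ r : ℕ → ℕ, ∀ i < 6, (r i < 7 ∧ r i ≠ u ∧ A u (r i)) ∧ ∀ j < 6, i ≠ j →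
    r i ≠ r j ∧ (A (r i) (r j) ↔ (j = (i + 1) % 6 ∨ i = (j + 1) % 6))

theorem bt_or (m i j a b : ℕ) (hi : i < 7) (hj : j < 7) (ha : a < 7) (hb : b < 7)
    (h : bt (m ||| pr i j) a b = true) :
    bt m a b = true ∨ (a = i ∧ b = j) ∨ (a = j ∧ b = i) := by
  unfold bt pr at h
  rw [Nat.testBit_or, Nat.testBit_or, Nat.testBit_two_pow, Nat.testBit_two_pow] at h
  simp only [Bool.or_eq_true, decide_eq_true_eq] at h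
  rcases h with h | h | h
  · exact Or.inl h
  · right; left; omega
  · right; right; omega

theorem chk_sound (A : ℕ → ℕ → Prop) (hs : ∀ i j, A i j → A j i) (hi : ∀ i, ¬ A i i) (t : T) :
    ∀ y z : ℕ, (∀ i < 7, ∀ j < 7, bt y i j = true → A i j) →
      (∀ i < 7, ∀ j < 7, bt z i j = true → ¬ A i j) → chk t y z = true →
      DegP A ∨ CerP A ∨ WhP A := by
  induction t with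
  | n i j t1 t0 h1 h0 =>
    intro y z hy hz h
    simp only [chk, Bool.and_eq_true, decide_eq_true_eq] at h
    obtain ⟨⟨⟨⟨hi7, hj7⟩, hij⟩, hc1⟩, hc0⟩ := h
    by_cases hA : A i j
    · refine h1 _ _ (fun a ha b hb hab => ?_) hz hc1
      rcases bt_or y i j a b hi7 hj7 ha hb hab with h | ⟨rfl, rfl⟩ | ⟨rfl, rfl⟩
      · exact hy a ha b hb h
      · exact hA
      · exact hs _ _ hA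
    · refine h0 _ _ hy (fun a ha b hb hab => ?_) hc0
      rcases bt_or z i j a b hi7 hj7 ha hb hab with h | ⟨rfl, rfl⟩ | ⟨rfl, rfl⟩
      · exact hz a ha b hb h
      · exact hA
      · exact fun h => hA (hs _ _ h)
  | d v =>
    intro y z _ hz h
    simp only [chk, Bool.and_eq_true, decide_eq_true_eq] at h
    refine Or.inl ⟨v, h.1, _, h.2, fun j hj hA => ?_⟩
    rw [List.mem_filter, List.mem_range]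
    refine ⟨hj, ?_⟩
    simp only [Bool.and_eq_true, Bool.not_eq_true', decide_eq_false_iff_not]
    refine ⟨fun hjv => hi v (hjv ▸ hA), ?_⟩
    by_contra hb
    rw [Bool.not_eq_false] at hb
    exact hz v h.1 j hj hb hA
  | c a x y =>
    intro m z hm _ h
    simp only [chk, cOK, Bool.and_eq_true, decide_eq_true_eq, List.all_eq_true, List.mem_range,
      Bool.or_eq_true] at h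
    refine Or.inr (Or.inl ⟨a, h.1, fun i => x.getD i 0, fun i => y.getD i 0, fun i hi4 => ?_⟩)
    obtain ⟨⟨⟨⟨⟨h1, h2⟩, h3⟩, h4⟩, h5⟩, h6⟩ := h.2 i hi4
    refine ⟨⟨h1, h2, h3, h4, h5.imp id fun hb => hm _ h1 _ h2 hb⟩, fun j hj4 hij => ?_⟩
    obtain ⟨⟨⟨⟨⟨g1, g2⟩, -⟩, -⟩, -⟩, -⟩ := h.2 j hj4
    rcases h6 j hj4 with h7 | ⟨⟨⟨k1, k2⟩, k3⟩, k4⟩
    · exact absurd h7 hij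
    · refine ⟨k1, k2, k3, ?_⟩
      rcases k4 with ((k4 | k4) | k4) | k4
      · exact Or.inl (hm _ h1 _ g1 k4)
      · exact Or.inr (Or.inl (hm _ h1 _ g2 k4))
      · exact Or.inr (Or.inr (Or.inl (hm _ h2 _ g1 k4)))
      · exact Or.inr (Or.inr (Or.inr (hm _ h2 _ g2 k4)))
  | w u r =>
    intro y z hy hz h
    simp only [chk, wOK, Bool.and_eq_true, decide_eq_true_eq, List.all_eq_true, List.mem_range,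
      Bool.or_eq_true] at h
    refine Or.inr (Or.inr ⟨u, h.1, fun i => r.getD i 0, fun i hi6 => ?_⟩)
    obtain ⟨⟨⟨h1, h2⟩, h3⟩, h4⟩ := h.2 i hi6
    refine ⟨⟨h1, h2, hy _ h.1 _ h1 h3⟩, fun j hj6 hij => ?_⟩
    obtain ⟨⟨⟨g1, -⟩, -⟩, -⟩ := h.2 j hj6
    rcases h4 j hj6 with h7 | ⟨k1, k2⟩
    · exact absurd h7 hij
    · refine ⟨k1, ?_⟩
      by_cases hc : j = (i + 1) % 6 ∨ i = (j + 1) % 6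
      · rw [if_pos hc] at k2
        exact ⟨fun _ => hc, fun _ => hy _ h1 _ g1 k2⟩
      · rw [if_neg hc] at k2
        exact ⟨fun hA => absurd hA (hz _ h1 _ g1 k2), fun h => absurd h hc⟩

/-- Graphs on seven vertices in which `0` is adjacent exactly to `1, 2, 3`. -/
theorem seven (A : ℕ → ℕ → Prop) (hs : ∀ i j, A i j → A j i) (hi : ∀ i, ¬ A i i)
    (h1 : A 0 1) (h2 : A 0 2) (h3 : A 0 3) (h4 : ¬ A 0 4) (h5 : ¬ A 0 5) (h6 : ¬ A 0 6) :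
    DegP A ∨ CerP A ∨ WhP A := by
  refine chk_sound A hs hi tree y0 z0 (fun a ha b hb hab => ?_) (fun a ha b hb hab => ?_) chk_tree
  · have h0 : ∀ a b : Fin 7, bt y0 a.val b.val = true →
        (a.val = 0 ∧ b.val = 1) ∨ (a.val = 1 ∧ b.val = 0) ∨ (a.val = 0 ∧ b.val = 2) ∨
        (a.val = 2 ∧ b.val = 0) ∨ (a.val = 0 ∧ b.val = 3) ∨ (a.val = 3 ∧ b.val = 0) := by
      decide +kernel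
    rcases h0 ⟨a, ha⟩ ⟨b, hb⟩ hab with ⟨rfl, rfl⟩ | ⟨rfl, rfl⟩ | ⟨rfl, rfl⟩ | ⟨rfl, rfl⟩ | ⟨rfl, rfl⟩ | ⟨rfl, rfl⟩
    exacts [h1, hs _ _ h1, h2, hs _ _ h2, h3, hs _ _ h3]
  · have h0 : ∀ a b : Fin 7, bt z0 a.val b.val = true →
        (a.val = 0 ∧ b.val = 4) ∨ (a.val = 4 ∧ b.val = 0) ∨ (a.val = 0 ∧ b.val = 5) ∨
        (a.val = 5 ∧ b.val = 0) ∨ (a.val = 0 ∧ b.val = 6) ∨ (a.val = 6 ∧ b.val = 0) := by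
      decide +kernel
    rcases h0 ⟨a, ha⟩ ⟨b, hb⟩ hab with ⟨rfl, rfl⟩ | ⟨rfl, rfl⟩ | ⟨rfl, rfl⟩ | ⟨rfl, rfl⟩ | ⟨rfl, rfl⟩ | ⟨rfl, rfl⟩
    exacts [h4, fun h => h4 (hs _ _ h), h5, fun h => h5 (hs _ _ h), h6, fun h => h6 (hs _ _ h)]

end Pool.Agent.K6S
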