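import Pool.Agent.K6T.Mad5
import Pool.Agent.K6S.Tree

/-!
# K6S / Wheel : seven vertices of degree at least three (MP_f8ea30_co)

If `N` has seven elements, every vertex has at least three neighbours in `N`, and no `N \ {a}` has a `K_4` minor, then the graph on `N` is a wheel.
-/

set_option autoImplicit false

namespace Pool.Agent.K6S

open Finset Pool.Agent.K6T
open Classical

variable {V : Type*}

theorem exists_three (G : SimpleGraph V) (N : Finset V) (h7 : N.card = 7)
    (h3 : ∀ x ∈ N, 3 ≤ (nb G N x).card) (hK : ∀ a ∈ N, ¬ HasK 4 G (N.erase a)) :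
    ∃ b ∈ N, (nb G N b).card = 3 := by
  by_contra hc
  push Not at hc
  have h4 : ∀ x ∈ N, 4 ≤ (nb G N x).card := fun x hx => by
    have := h3 x hx
    have := hc x hx
    omega
  have hle : ∀ a ∈ N, dc G N ≤ 19 + 2 * (nb G N a).card := by
    intro a ha
    by_contra hcon
    have h1 := dc_erase G N ha
    have hcard : (N.erase a).card = 6 := by rw [card_erase_of_mem ha, h7]
    exact hK a ha (mad2 V G (N.erase a) (by omega) (by rw [hcard]; omega))
  have h28 : 28 ≤ dc G N := by
    unfold dc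
    have := card_nsmul_le_sum N (fun x => (nb G N x).card) 4 h4
    rw [h7] at this
    simpa using this
  have hs : ∑ a ∈ N, dc G N ≤ ∑ a ∈ N, (19 + 2 * (nb G N a).card) := sum_le_sum hle
  rw [sum_const, smul_eq_mul, h7, sum_add_distrib, sum_const, smul_eq_mul, h7, ← mul_sum] at hs
  have h5 : ∑ a ∈ N, (nb G N a).card = dc G N := rfl
  rw [h5] at hs
  omega

theorem wheel (G : SimpleGraph V) (N : Finset V) (h7 : N.card = 7)
    (h3 : ∀ x ∈ N, 3 ≤ (nb G N x).card) (hK : ∀ a ∈ N, ¬ HasK 4 G (N.erase a)) :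
    ∃ (u : V) (r : Fin 6 → V), N = insert u (univ.image r) ∧ Function.Injective r ∧
      (∀ i, r i ≠ u) ∧ (∀ i, G.Adj u (r i)) ∧
      ∀ i j, G.Adj (r i) (r j) ↔ (j = i + 1 ∨ i = j + 1) := by
  obtain ⟨b, hb, hb3⟩ := exists_three G N h7 h3 hK
  obtain ⟨x, y, z, hxy, hxz, hyz, hnb⟩ := card_eq_three.1 hb3
  have hsub : insert b (nb G N b) ⊆ N := insert_subset hb (nb_subset G N b)
  have hbn : b ∉ nb G N b := fun h => (mem_nb.1 h).2.ne rfl
  have hrest : (N \ insert b (nb G N b)).card = 3 := by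
    rw [card_sdiff_of_subset hsub, card_insert_of_notMem hbn, hb3, h7]
  obtain ⟨p, q, s, hpq, hps, hqs, hre⟩ := card_eq_three.1 hrest
  have hx : x ∈ nb G N b := by rw [hnb]; simp
  have hy : y ∈ nb G N b := by rw [hnb]; simp
  have hz : z ∈ nb G N b := by rw [hnb]; simp
  have hp : p ∈ N \ insert b (nb G N b) := by rw [hre]; simp
  have hq : q ∈ N \ insert b (nb G N b) := by rw [hre]; simp
  have hs : s ∈ N \ insert b (nb G N b) := by rw [hre]; simp
  have hout : ∀ t ∈ N \ insert b (nb G N b), t ∈ N ∧ t ≠ b ∧ t ∉ nb G N b ∧ ¬ G.Adj b t := by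
    intro t ht
    rw [mem_sdiff, mem_insert, not_or] at ht
    exact ⟨ht.1, ht.2.1, ht.2.2, fun h => ht.2.2 (mem_nb.2 ⟨ht.1, h⟩)⟩
  have hne : ∀ t ∈ nb G N b, ∀ t' ∈ N \ insert b (nb G N b), t ≠ t' := by
    intro t ht t' ht' h
    exact (hout t' ht').2.2.1 (h ▸ ht)
  have hbx : ∀ t ∈ nb G N b, b ≠ t := fun t ht h => hbn (h ▸ ht)
  have hbp : ∀ t ∈ N \ insert b (nb G N b), b ≠ t := fun t ht h => (hout t ht).2.1 h.symm
  set l : List V := [b, x, y, z, p, q, s] with hl
  have hnod : l.Nodup := by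
    rw [hl]
    simp only [List.nodup_cons, List.mem_cons, List.not_mem_nil, or_false, not_or,
      List.nodup_nil, not_false_eq_true, and_true]
    exact ⟨⟨hbx x hx, hbx y hy, hbx z hz, hbp p hp, hbp q hq, hbp s hs⟩,
      ⟨hxy, hxz, hne x hx p hp, hne x hx q hq, hne x hx s hs⟩,
      ⟨hyz, hne y hy p hp, hne y hy q hq, hne y hy s hs⟩,
      ⟨hne z hz p hp, hne z hz q hq, hne z hz s hs⟩, ⟨hpq, hps⟩, hqs⟩
  have hlen : l.length = 7 := by rw [hl]; rfl
  have hlN : ∀ t ∈ l, t ∈ N := by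
    intro t ht
    rw [hl] at ht
    simp only [List.mem_cons, List.not_mem_nil, or_false] at ht
    rcases ht with rfl | rfl | rfl | rfl | rfl | rfl | rfl
    exacts [hb, (mem_nb.1 hx).1, (mem_nb.1 hy).1, (mem_nb.1 hz).1, (hout _ hp).1, (hout _ hq).1,
      (hout _ hs).1]
  obtain ⟨f, hf⟩ : ∃ f : ℕ → V, ∀ k, f k = l.getD k b := ⟨fun k => l.getD k b, fun k => rfl⟩
  have hfl : ∀ k (hk : k < 7), f k = l[k]'(by omega) := by
    intro k hk
    rw [hf, List.getD_eq_getElem]
  have hinj : ∀ i < 7, ∀ j < 7, f i = f j → i = j := by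
    intro i hi j hj h
    rw [hfl i hi, hfl j hj] at h
    exact (List.Nodup.getElem_inj_iff hnod).1 h
  have hfN : ∀ k < 7, f k ∈ N := by
    intro k hk
    rw [hfl k hk]
    exact hlN _ (List.getElem_mem _)
  have hNf : N = (range 7).image f := by
    symm
    refine eq_of_subset_of_card_le (fun t ht => ?_) ?_
    · obtain ⟨k, hk, rfl⟩ := mem_image.1 ht
      exact hfN k (mem_range.1 hk)
    · rw [card_image_of_injOn, card_range, h7]
      intro i hi j hj h
      exact hinj i (by simpa using hi) j (by simpa using hj) h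
  obtain ⟨A, hA⟩ : ∃ A : ℕ → ℕ → Prop, ∀ i j, A i j ↔ G.Adj (f i) (f j) :=
    ⟨fun i j => G.Adj (f i) (f j), fun i j => Iff.rfl⟩
  have f0 : f 0 = b := by rw [hf, hl]; rfl
  have f1 : f 1 = x := by rw [hf, hl]; rfl
  have f2 : f 2 = y := by rw [hf, hl]; rfl
  have f3 : f 3 = z := by rw [hf, hl]; rfl
  have f4 : f 4 = p := by rw [hf, hl]; rfl
  have f5 : f 5 = q := by rw [hf, hl]; rfl
  have f6 : f 6 = s := by rw [hf, hl]; rfl
  have key := seven A (fun i j h => (hA _ _).2 ((hA _ _).1 h).symm)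
    (fun i h => ((hA _ _).1 h).ne rfl)
    ((hA _ _).2 (by rw [f0, f1]; exact (mem_nb.1 hx).2))
    ((hA _ _).2 (by rw [f0, f2]; exact (mem_nb.1 hy).2))
    ((hA _ _).2 (by rw [f0, f3]; exact (mem_nb.1 hz).2))
    (fun h => (hout p hp).2.2.2 (by have := (hA _ _).1 h; rwa [f0, f4] at this))
    (fun h => (hout q hq).2.2.2 (by have := (hA _ _).1 h; rwa [f0, f5] at this))
    (fun h => (hout s hs).2.2.2 (by have := (hA _ _).1 h; rwa [f0, f6] at this))
  rcases key with ⟨v, hv, l', hl', hv'⟩ | ⟨a, ha, g, g', hg⟩ | ⟨u, hu, r, hr⟩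
  · -- a vertex of degree at most two
    exfalso
    have h1 : nb G N (f v) ⊆ (l'.map f).toFinset := by
      intro t ht
      obtain ⟨htN, hvt⟩ := mem_nb.1 ht
      rw [hNf] at htN
      obtain ⟨k, hk, rfl⟩ := mem_image.1 htN
      rw [List.mem_toFinset]
      exact List.mem_map_of_mem (hv' k (mem_range.1 hk) ((hA _ _).2 hvt))
    have h2 := card_le_card h1
    have h4 := List.toFinset_card_le (l'.map f)
    rw [List.length_map] at h4
    have h5 := h3 (f v) (hfN v hv)
    omega
  · -- a `K_4` minor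
    exfalso
    refine hK (f a) (hfN a ha) ⟨fun i => {f (g i.val), f (g' i.val)}, fun i => ?_, fun i => ?_,
      fun i j hij => ?_, fun i j hij => ?_⟩
    · obtain ⟨⟨h1, h2, h4, h5, -⟩, -⟩ := hg i.val i.isLt
      rw [insert_subset_iff, singleton_subset_iff]
      exact ⟨mem_erase.2 ⟨fun h => h4 (hinj _ h1 _ ha h), hfN _ h1⟩,
        mem_erase.2 ⟨fun h => h5 (hinj _ h2 _ ha h), hfN _ h2⟩⟩
    · obtain ⟨⟨h1, h2, -, -, h5⟩, -⟩ := hg i.val i.isLt
      rcases h5 with h5 | h5
      · show Conn G {f (g i.val), f (g' i.val)}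
        rw [h5, insert_eq_of_mem (mem_singleton_self _)]
        exact conn_singleton G _
      · exact conn_pair ((hA _ _).1 h5)
    · have hij' : i.val ≠ j.val := fun h => hij (Fin.ext h)
      obtain ⟨⟨h1, h2, -, -, -⟩, h6⟩ := hg i.val i.isLt
      obtain ⟨⟨k1, k2, -, -, -⟩, k6⟩ := hg j.val j.isLt
      obtain ⟨e1, e2, e3, -⟩ := h6 j.val j.isLt hij'
      obtain ⟨e4, e5, e6, -⟩ := k6 i.val i.isLt hij'.symm
      rw [disjoint_left]
      intro t ht ht'
      rw [mem_insert, mem_singleton] at ht ht'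
      rcases ht with rfl | rfl <;> rcases ht' with h | h
      · exact e1 (hinj _ h1 _ k1 h)
      · exact e2 (hinj _ h1 _ k2 h)
      · exact e5 (hinj _ h2 _ k1 h).symm
      · exact e3 (hinj _ h2 _ k2 h)
    · have hij' : i.val ≠ j.val := fun h => hij (Fin.ext h)
      obtain ⟨-, h6⟩ := hg i.val i.isLt
      obtain ⟨-, -, -, e⟩ := h6 j.val j.isLt hij'
      rcases e with e | e | e | e
      · exact ⟨_, mem_insert_self _ _, _, mem_insert_self _ _, (hA _ _).1 e⟩
      · exact ⟨_, mem_insert_self _ _, _, mem_insert_of_mem (mem_singleton_self _), (hA _ _).1 e⟩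
      · exact ⟨_, mem_insert_of_mem (mem_singleton_self _), _, mem_insert_self _ _, (hA _ _).1 e⟩
      · exact ⟨_, mem_insert_of_mem (mem_singleton_self _), _,
          mem_insert_of_mem (mem_singleton_self _), (hA _ _).1 e⟩
  · -- a wheel
    refine ⟨f u, fun i => f (r i.val), ?_, ?_, ?_, ?_, ?_⟩
    · have hri : Function.Injective (fun i : Fin 6 => f (r i.val)) := by
        intro i j h
        by_contra hij
        have hij' : i.val ≠ j.val := fun h => hij (Fin.ext h)
        exact ((hr i.val i.isLt).2 j.val j.isLt hij').1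
          (hinj _ (hr i.val i.isLt).1.1 _ (hr j.val j.isLt).1.1 h)
      symm
      refine eq_of_subset_of_card_le ?_ ?_
      · refine insert_subset (hfN u hu) fun t ht => ?_
        obtain ⟨i, -, rfl⟩ := mem_image.1 ht
        exact hfN _ (hr i.val i.isLt).1.1
      · rw [card_insert_of_notMem, card_image_of_injective _ hri, card_univ, Fintype.card_fin, h7]
        rw [mem_image]
        rintro ⟨i, -, h⟩
        exact (hr i.val i.isLt).1.2.1 (hinj _ (hr i.val i.isLt).1.1 _ hu h)
    · intro i j h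
      by_contra hij
      have hij' : i.val ≠ j.val := fun h => hij (Fin.ext h)
      exact ((hr i.val i.isLt).2 j.val j.isLt hij').1
        (hinj _ (hr i.val i.isLt).1.1 _ (hr j.val j.isLt).1.1 h)
    · intro i h
      exact (hr i.val i.isLt).1.2.1 (hinj _ (hr i.val i.isLt).1.1 _ hu h)
    · intro i
      exact (hA _ _).1 (hr i.val i.isLt).1.2.2
    · intro i j
      by_cases hij : i = j
      · subst hij
        refine ⟨fun h => absurd rfl h.ne, fun h => ?_⟩
        exfalso
        revert h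
        revert i
        decide
      · have hij' : i.val ≠ j.val := fun h => hij (Fin.ext h)
        rw [← hA, ((hr i.val i.isLt).2 j.val j.isLt hij').2]
        rw [Fin.ext_iff, Fin.ext_iff, Fin.val_add, Fin.val_add]
        rfl

end Pool.Agent.K6S
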