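import Pool.Agent.K6S.A
import Pool.Agent.K6S.D
import Pool.Agent.K6S.Wheel

/-!
# K6S / Main : 7-regular graphs whose neighbourhoods have a `K_4` minor or are wheels (MP_f8ea30_co)
-/

set_option autoImplicit false

namespace Pool.Agent.K6S

open Finset Pool.Agent.K6T
open Classical

variable {V : Type*}

/-- the graph on `N` is a wheel with six spokes -/
def Wh (G : SimpleGraph V) (N : Finset V) : Prop :=
  ∃ (u : V) (r : Fin 6 → V), N = insert u (univ.image r) ∧ Function.Injective r ∧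
    (∀ i, r i ≠ u) ∧ (∀ i, G.Adj u (r i)) ∧ ∀ i j, G.Adj (r i) (r j) ↔ (j = i + 1 ∨ i = j + 1)

theorem seven_core (G : SimpleGraph V) (S : Finset V) (hne : S.Nonempty)
    (h7 : ∀ v ∈ S, (nb G S v).card = 7)
    (hl : ∀ v ∈ S, (∃ a ∈ nb G S v, HasK 4 G ((nb G S v).erase a)) ∨ Wh G (nb G S v)) :
    HasK 6 G S := by
  by_contra hno
  obtain ⟨w, hw, C, hCn, hC, hcl, hK⟩ := core7 G S hne h7 hno
  refine hno (fin8 G S h7 w hw C hCn hC hcl (fun v hv => ?_) (hl w hw))
  rcases hl v (mem_sdiff.1 (hC hv)).1 with ⟨a, ha, h⟩ | h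
  · exact absurd h (hK v hv a ha)
  · exact h

/-- seven vertices with at least twelve edges -/
theorem twelve_edges (G : SimpleGraph V) (N : Finset V) (h7 : N.card = 7) (h24 : 24 ≤ dc G N) :
    (∃ a ∈ N, HasK 4 G (N.erase a)) ∨ Wh G N := by
  by_cases hK : ∃ a ∈ N, HasK 4 G (N.erase a)
  · exact Or.inl hK
  · right
    push Not at hK
    refine wheel G N h7 (fun x hx => ?_) hK
    by_contra hcon
    have h1 := dc_erase G N hx
    have hcard : (N.erase x).card = 6 := by rw [card_erase_of_mem hx, h7]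
    obtain ⟨k, hk⟩ := dc_even G N
    exact hK x hx (mad2 V G (N.erase x) (by omega) (by rw [hcard]; omega))

/-- seven vertices of degree at least three -/
theorem min_three (G : SimpleGraph V) (N : Finset V) (h7 : N.card = 7)
    (h3 : ∀ x ∈ N, 3 ≤ (nb G N x).card) :
    (∃ a ∈ N, HasK 4 G (N.erase a)) ∨ Wh G N := by
  by_cases hK : ∃ a ∈ N, HasK 4 G (N.erase a)
  · exact Or.inl hK
  · right
    push Not at hK
    exact wheel G N h7 h3 hK

end Pool.Agent.K6S
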